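import Mathlib

/-! The associated Lie ring of a group (lower central series). -/

namespace Pool.Agent.MP_570645_al.H18

open scoped commutatorElement DirectSum

variable (G : Type) [Group G]

/-- `gam G i` is the term `γ_(i+1)(G)` of the lower central series. -/
abbrev gam (i : ℕ) : Subgroup G := (⊤ : Subgroup G).lowerCentralSeries i

variable {G}

theorem three_le {A B C N : Subgroup G} [N.Normal] (h1 : ⁅⁅B, C⁆, A⁆ ≤ N) (h2 : ⁅⁅C, A⁆, B⁆ ≤ N) :
    ⁅⁅A, B⁆, C⁆ ≤ N := by
  have key : ∀ H : Subgroup G, H ≤ N ↔ H.map (QuotientGroup.mk' N) = ⊥ := fun H => by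
    rw [Subgroup.map_eq_bot_iff, QuotientGroup.ker_mk']
  rw [key] at h1 h2 ⊢
  simp only [Subgroup.map_commutator] at h1 h2 ⊢
  exact Subgroup.commutator_commutator_eq_bot_of_rotate h1 h2

theorem gam_comm_le (j : ℕ) : ∀ i : ℕ, ⁅gam G i, gam G j⁆ ≤ gam G (i + j + 1) := by
  induction j with
  | zero => intro i; exact le_rfl
  | succ j ih =>
    intro i
    rw [Subgroup.commutator_comm]
    refine three_le (A := gam G j) (B := ⊤) (C := gam G i) ?_ ?_
    · rw [Subgroup.commutator_comm ⊤ (gam G i)]
      have := ih (i + 1)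
      rwa [show i + 1 + j + 1 = i + (j + 1) + 1 by omega] at this
    · exact Subgroup.commutator_mono (ih i) le_rfl

theorem gam_comm {i j : ℕ} {x y : G} (hx : x ∈ gam G i) (hy : y ∈ gam G j) :
    ⁅x, y⁆ ∈ gam G (i + j + 1) :=
  gam_comm_le j i (Subgroup.commutator_mem_commutator hx hy)

theorem gam_anti {i j : ℕ} (h : i ≤ j) {x : G} (hx : x ∈ gam G j) : x ∈ gam G i :=
  (⊤ : Subgroup G).lowerCentralSeries_antitone h hx

variable (G)

/-- The factor group `γ_(i+1)(G) / γ_(i+2)(G)`, written additively. -/
def Gr (i : ℕ) : Type := Additive (gam G i ⧸ (gam G (i + 1)).subgroupOf (gam G i))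

instance (i : ℕ) : AddCommGroup (Gr G i) :=
  { (inferInstance : AddGroup (Additive (gam G i ⧸ (gam G (i + 1)).subgroupOf (gam G i)))) with
    add_comm := fun a b => by
      obtain ⟨x, hx⟩ := QuotientGroup.mk_surjective (Additive.toMul a)
      obtain ⟨y, hy⟩ := QuotientGroup.mk_surjective (Additive.toMul b)
      change Additive.toMul a * Additive.toMul b = Additive.toMul b * Additive.toMul a
      rw [← hx, ← hy, ← QuotientGroup.mk_mul, ← QuotientGroup.mk_mul,
        QuotientGroup.eq, Subgroup.mem_subgroupOf]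
      have := gam_anti (i := i + 1) (by omega) (gam_comm (inv_mem y.2) (inv_mem x.2))
      simpa [commutatorElement_def, mul_assoc] using this }

/-- The additive group of the associated Lie ring: the direct sum of the factors. -/
def AL : Type := ⨁ i : ℕ, Gr G i

instance : AddCommGroup (AL G) := (inferInstance : AddCommGroup (⨁ i : ℕ, Gr G i))

variable {G}

open Classical in
/-- The class of `x ∈ γ_(i+1)(G)` in the `i`-th summand (zero if `x` is not in `γ_(i+1)(G)`). -/
noncomputable def cls (i : ℕ) (x : G) : AL G :=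
  if h : x ∈ gam G i then
    DirectSum.of (Gr G) i (Additive.ofMul (QuotientGroup.mk (⟨x, h⟩ : gam G i)))
  else 0

theorem cls_mul {i : ℕ} {x y : G} (hx : x ∈ gam G i) (hy : y ∈ gam G i) :
    cls i (x * y) = cls i x + cls i y := by
  unfold cls
  rw [dif_pos hx, dif_pos hy, dif_pos (mul_mem hx hy)]
  exact (DirectSum.of (Gr G) i).map_add (Additive.ofMul (QuotientGroup.mk (⟨x, hx⟩ : gam G i)))
    (Additive.ofMul (QuotientGroup.mk (⟨y, hy⟩ : gam G i)))

theorem cls_eq_zero_iff {i : ℕ} {x : G} (hx : x ∈ gam G i) : cls i x = 0 ↔ x ∈ gam G (i + 1) := by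
  unfold cls
  rw [dif_pos hx]
  have h1 : ∀ a : Gr G i, (DirectSum.of (Gr G) i a : AL G) = 0 ↔ a = 0 := fun a =>
    map_eq_zero_iff _ (DirectSum.of_injective i)
  refine (h1 _).trans ?_
  change (QuotientGroup.mk (⟨x, hx⟩ : gam G i) : gam G i ⧸ _) = 1 ↔ _
  rw [QuotientGroup.eq_one_iff, Subgroup.mem_subgroupOf]

theorem cls_succ {i : ℕ} {x : G} (hx : x ∈ gam G (i + 1)) : cls i x = 0 :=
  (cls_eq_zero_iff (gam_anti (Nat.le_succ i) hx)).2 hx

theorem cls_one (i : ℕ) : cls i (1 : G) = 0 := cls_succ (one_mem _)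

theorem cls_inv {i : ℕ} {x : G} (hx : x ∈ gam G i) : cls i x⁻¹ = -cls i x := by
  rw [eq_neg_iff_add_eq_zero, ← cls_mul (inv_mem hx) hx, inv_mul_cancel, cls_one]

theorem gam_conj {i : ℕ} {x : G} (hx : x ∈ gam G i) (g : G) : g * x * g⁻¹ ∈ gam G i :=
  Subgroup.Normal.conj_mem inferInstance x hx g

theorem cls_conj {i : ℕ} {x : G} (hx : x ∈ gam G i) (g : G) : cls i (g * x * g⁻¹) = cls i x := by
  have h : ⁅g, x⁆ ∈ gam G (i + 1) := by
    have := gam_comm (i := 0) (x := g) (Subgroup.mem_top g) hx
    rwa [Nat.zero_add] at this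
  have e : g * x * g⁻¹ = ⁅g, x⁆ * x := by simp [commutatorElement_def]
  rw [e, cls_mul (gam_anti (Nat.le_succ i) h) hx, cls_succ h, zero_add]

theorem AL_ind {P : AL G → Prop} (h0 : P 0) (hadd : ∀ a b, P a → P b → P (a + b))
    (hc : ∀ i x, x ∈ gam G i → P (cls i x)) (a : AL G) : P a := by
  refine DirectSum.induction_on (motive := P) a h0 ?_ hadd
  intro i b
  obtain ⟨x, hx⟩ := QuotientGroup.mk_surjective (Additive.toMul b)
  have := hc i x x.2
  unfold cls at this
  rw [dif_pos x.2] at this
  have e : b = Additive.ofMul (QuotientGroup.mk x) := by rw [hx]; rfl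
  rw [e]; exact this

/-- A family of maps, additive on `γ_(i+1)` and zero on `γ_(i+2)`. -/
structure Adm {A : Type} [AddCommGroup A] (f : ℕ → G → A) : Prop where
  add : ∀ i x y, x ∈ gam G i → y ∈ gam G i → f i (x * y) = f i x + f i y
  zero : ∀ i x, x ∈ gam G (i + 1) → f i x = 0

/-- An additive map on a group that vanishes on `N` factors through the quotient. -/
def liftQ {Q A : Type} [Group Q] [AddCommGroup A] (N : Subgroup Q) [N.Normal] (f : Q → A)
    (h1 : ∀ x y, f (x * y) = f x + f y) (h2 : ∀ x ∈ N, f x = 0) : Additive (Q ⧸ N) →+ A :=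
  MonoidHom.toAdditiveLeft (QuotientGroup.lift N
    (MonoidHom.mk' (fun x : Q => Multiplicative.ofAdd (f x)) h1) h2)

/-- The additive map on the `i`-th factor induced by such a family. -/
def liftG {A : Type} [AddCommGroup A] (f : ℕ → G → A) (hf : Adm f) (i : ℕ) : Gr G i →+ A :=
  liftQ ((gam G (i + 1)).subgroupOf (gam G i)) (fun x => f i x)
    (fun x y => hf.add i x y x.2 y.2) fun x hx => hf.zero i x hx

/-- The additive map on the direct sum induced by such a family. -/
noncomputable def lift {A : Type} [AddCommGroup A] (f : ℕ → G → A) (hf : Adm f) : AL G →+ A :=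
  DirectSum.toAddMonoid (liftG f hf)

theorem lift_cls {A : Type} [AddCommGroup A] (f : ℕ → G → A) (hf : Adm f) {i : ℕ} {x : G}
    (hx : x ∈ gam G i) : lift f hf (cls i x) = f i x := by
  unfold cls lift
  rw [dif_pos hx]
  exact DirectSum.toAddMonoid_of _ i _

theorem adm_right {i : ℕ} {x : G} (hx : x ∈ gam G i) :
    Adm fun j (y : G) => cls (i + j + 1) ⁅x, y⁆ where
  add j y z hy hz := by
    have e : ⁅x, y * z⁆ = ⁅x, y⁆ * (y * ⁅x, z⁆ * y⁻¹) := by simp [commutatorElement_def, mul_assoc]
    rw [e, cls_mul (gam_comm hx hy) (gam_conj (gam_comm hx hz) y), cls_conj (gam_comm hx hz)]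
  zero j y hy := cls_succ (gam_comm (j := j + 1) hx hy)

theorem hom_ext {A : Type} [AddCommGroup A] {f g : AL G →+ A}
    (h : ∀ i x, x ∈ gam G i → f (cls i x) = g (cls i x)) : f = g :=
  AddMonoidHom.ext (AL_ind (by simp) (fun a b ha hb => by simp [ha, hb]) h)

open Classical in
/-- Bracketing on the left with the class of `x ∈ γ_(i+1)`. -/
noncomputable def brL (i : ℕ) (x : G) : AL G →+ AL G :=
  if h : x ∈ gam G i then lift _ (adm_right h) else 0

theorem brL_cls {i j : ℕ} {x y : G} (hx : x ∈ gam G i) (hy : y ∈ gam G j) :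
    brL i x (cls j y) = cls (i + j + 1) ⁅x, y⁆ := by
  unfold brL
  rw [dif_pos hx, lift_cls _ _ hy]

theorem adm_brL : Adm (brL (G := G)) where
  add i x y hx hy := hom_ext fun j z hz => by
    rw [AddMonoidHom.add_apply, brL_cls (mul_mem hx hy) hz, brL_cls hx hz, brL_cls hy hz,
      commutatorElement_mul_left_eq_conj_mul,
      cls_mul (gam_conj (gam_comm hy hz) x) (gam_comm hx hz), cls_conj (gam_comm hy hz), add_comm]
  zero i x hx := hom_ext fun j z hz => by
    rw [brL_cls (gam_anti (Nat.le_succ i) hx) hz, AddMonoidHom.zero_apply]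
    have := gam_comm hx hz
    rw [show i + 1 + j + 1 = i + j + 1 + 1 by omega] at this
    exact cls_succ this

/-- The bracket: the biadditive map with `[cls i x, cls j y] = cls (i+j+1) ⁅x, y⁆`. -/
noncomputable def br : AL G →+ AL G →+ AL G := lift brL adm_brL

theorem br_cls {i j : ℕ} {x y : G} (hx : x ∈ gam G i) (hy : y ∈ gam G j) :
    br (cls i x) (cls j y) = cls (i + j + 1) ⁅x, y⁆ := by
  unfold br
  rw [lift_cls _ _ hx, brL_cls hx hy]

theorem br_skew (a b : AL G) : br a b + br b a = 0 := by
  induction a using AL_ind with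
  | h0 => simp
  | hadd a a' h h' => rw [map_add, AddMonoidHom.add_apply, map_add]; linear_combination (norm := abel1) h + h'
  | hc i x hx =>
    induction b using AL_ind with
    | h0 => simp
    | hadd b b' h h' =>
      rw [map_add, map_add, AddMonoidHom.add_apply]; linear_combination (norm := abel1) h + h'
    | hc j y hy =>
      rw [br_cls hx hy, br_cls hy hx, ← commutatorElement_inv x y, Nat.add_comm j i,
        cls_inv (gam_comm hx hy), add_neg_cancel]

theorem br_jac (a b c : AL G) : br (br a b) c + br (br b c) a + br (br c a) b = 0 := by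
  induction a using AL_ind with
  | h0 => simp
  | hadd a a' h h' =>
    simp only [map_add, AddMonoidHom.add_apply]; linear_combination (norm := abel1) h + h'
  | hc i x hx =>
    induction b using AL_ind with
    | h0 => simp
    | hadd a a' h h' =>
      simp only [map_add, AddMonoidHom.add_apply]; linear_combination (norm := abel1) h + h'
    | hc j y hy =>
      induction c using AL_ind with
      | h0 => simp
      | hadd a a' h h' =>
        simp only [map_add, AddMonoidHom.add_apply]; linear_combination (norm := abel1) h + h'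
      | hc k z hz =>
        have h1 := gam_comm (gam_comm hx hy) (gam_conj hz y)
        have h2 := gam_comm (gam_comm hy hz) (gam_conj hx z)
        have h3 := gam_comm (gam_comm hz hx) (gam_conj hy x)
        rw [br_cls hx hy, br_cls hy hz, br_cls hz hx]
        rw [← cls_conj hz y, br_cls (gam_comm hx hy) (gam_conj hz y)]
        rw [← cls_conj hx z, br_cls (gam_comm hy hz) (gam_conj hx z)]
        rw [← cls_conj hy x, br_cls (gam_comm hz hx) (gam_conj hy x)]
        rw [show j + k + 1 + i + 1 = i + j + 1 + k + 1 by omega] at h2 ⊢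
        rw [show k + i + 1 + j + 1 = i + j + 1 + k + 1 by omega] at h3 ⊢
        rw [← cls_mul h1 h2, ← cls_mul (mul_mem h1 h2) h3,
          commutatorElement_commutatorElement_conj_mul, cls_one]

/-- The bracket as a function of two variables. -/
noncomputable def brk (a b : AL G) : AL G := br a b

theorem brk_add_left (a b c : AL G) : brk (a + b) c = brk a c + brk b c := by
  rw [brk, map_add, AddMonoidHom.add_apply]; rfl

theorem brk_add_right (a b c : AL G) : brk a (b + c) = brk a b + brk a c := map_add _ _ _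

theorem brk_self (a : AL G) : brk a a = 0 := by
  unfold brk
  induction a using AL_ind with
  | h0 => simp
  | hadd a b h h' =>
    simp only [map_add, AddMonoidHom.add_apply]
    linear_combination (norm := abel1) h + h' + br_skew a b
  | hc i x hx => rw [br_cls hx hx, commutatorElement_self, cls_one]

theorem brk_leibniz (a b c : AL G) : brk a (brk b c) = brk (brk a b) c + brk b (brk a c) := by
  unfold brk
  have h := br_jac a b c
  have h1 := br_skew (br b c) a
  have h2 := br_skew (br c a) b
  have h3 : br b (br c a) + br b (br a c) = 0 := by rw [← map_add, br_skew, map_zero]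
  linear_combination (norm := abel1) h1 + h2 - h - h3

/-- The associated Lie ring of `G`. -/
noncomputable instance : LieRing (AL G) where
  bracket := brk
  add_lie := brk_add_left
  lie_add := brk_add_right
  lie_self := brk_self
  leibniz_lie := brk_leibniz

theorem lie_cls {i j : ℕ} {x y : G} (hx : x ∈ gam G i) (hy : y ∈ gam G j) :
    ⁅cls i x, cls j y⁆ = cls (i + j + 1) ⁅x, y⁆ := br_cls hx hy

/-- A Lie ring is relatively free: some generating set `Y` has the property that every map
`Y → M` extends to an endomorphism of `M`. -/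
def RelFree (M : Type) [LieRing M] : Prop :=
  ∃ Y : Set M, LieSubalgebra.lieSpan ℤ M Y = ⊤ ∧
    ∀ u : Y → M, ∃ φ : M →ₗ⁅ℤ⁆ M, ∀ y : Y, φ y = u y

/-- `Prd c k v`: `v` is a Lie product (any bracketing, any other entries) in which `k` of the
entries are equal to `c`. -/
inductive Prd {M : Type} [LieRing M] (c : M) : ℕ → M → Prop
  | other (y : M) : Prd c 0 y
  | self : Prd c 1 c
  | lie {i j : ℕ} {v w : M} : Prd c i v → Prd c j w → Prd c (i + j) ⁅v, w⁆

/-- The ideal generated by the Lie products having `k` entries equal to one `c ∈ [M, M]`. -/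
def NI (k : ℕ) (M : Type) [LieRing M] : LieIdeal ℤ M :=
  LieSubmodule.lieSpan ℤ M {v | ∃ c ∈ LieAlgebra.derivedSeries ℤ M 1, Prd c k v}

end Pool.Agent.MP_570645_al.H18
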