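import Pool.Agent.MP_570645_al.H18.Main

/-! The Engel identity on elements of degree one. -/

namespace Pool.Agent.MP_570645_al.H18

open Finset Polynomial
open scoped commutatorElement

theorem poly_id {p : ℕ} (hp : p.Prime) :
    ∃ q : ℤ[X], (X - 1 : ℤ[X]) ^ (p - 1) = ∑ i ∈ range p, X ^ i + p • q := by
  have := Fact.mk hp
  have h1 : (X - 1 : (ZMod p)[X]) ^ (p - 1) = ∑ i ∈ range p, X ^ i := by
    have hne : (X - 1 : (ZMod p)[X]) ≠ 0 := by simpa using X_sub_C_ne_zero (1 : ZMod p)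
    apply mul_right_cancel₀ hne
    rw [geom_sum_mul, ← pow_succ, Nat.sub_add_cancel hp.one_le, sub_pow_char, one_pow]
  have h2 : C (p : ℤ) ∣ (X - 1 : ℤ[X]) ^ (p - 1) - ∑ i ∈ range p, X ^ i := by
    rw [C_dvd_iff_dvd_coeff]
    intro n
    rw [← ZMod.intCast_zmod_eq_zero_iff_dvd]
    have : ((X - 1 : ℤ[X]) ^ (p - 1) - ∑ i ∈ range p, X ^ i).map (Int.castRingHom (ZMod p)) = 0 := by
      simp [Polynomial.map_sum, h1]
    have h := congrArg (fun f => f.coeff n) this
    simpa only [coeff_map, coeff_zero, eq_intCast] using h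
  obtain ⟨q, hq⟩ := h2
  exact ⟨q, by rw [← sub_eq_iff_eq_add', hq]; simp⟩

theorem exists_root {p : ℕ} (hp : p.Prime) :
    ∃ r : ℕ, ∀ k, 1 ≤ k → k + 2 ≤ p → ∃ s : ℤ, (s * (r - r ^ (k + 1))) % p = 1 % p := by
  have := Fact.mk hp
  obtain ⟨g, hg⟩ := IsCyclic.exists_generator (α := (ZMod p)ˣ)
  have ho : orderOf g = p - 1 := by
    rw [orderOf_eq_card_of_forall_mem_zpowers hg, Nat.card_eq_fintype_card, ZMod.card_units]
  refine ⟨(g : ZMod p).val, fun k h1 h2 => ?_⟩
  have hne : (g : ZMod p) - g ^ (k + 1) ≠ 0 := by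
    intro h
    have h3 : g ^ k ≠ 1 := pow_ne_one_of_lt_orderOf (by omega) (by omega)
    apply h3
    have h4 : (g : ZMod p) ^ k * g = 1 * g := by rw [← pow_succ, one_mul]; exact (sub_eq_zero.1 h).symm
    exact Units.ext (by simpa using mul_right_cancel₀ g.ne_zero h4)
  refine ⟨(((g : ZMod p) - g ^ (k + 1))⁻¹).val, ?_⟩
  apply (ZMod.intCast_eq_intCast_iff' _ _ p).1
  push_cast
  simp only [ZMod.natCast_val, ZMod.cast_id', id_eq]
  exact inv_mul_cancel₀ hne

variable {G : Type} [Group G]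

theorem cls_pow {i : ℕ} {x : G} (hx : x ∈ gam G i) (k : ℕ) : cls i (x ^ k) = k • cls i x := by
  induction k with
  | zero => rw [pow_zero, cls_one, zero_nsmul]
  | succ k ih => rw [pow_succ, cls_mul (pow_mem hx k) hx, ih, succ_nsmul]

/-- Iterated commutator `⁅g, ⁅g, … z⁆⁆`. -/
def itc (g z : G) : ℕ → G
  | 0 => z
  | k + 1 => ⁅g, itc g z k⁆

theorem itc_mem (g z : G) (k : ℕ) : itc g z k ∈ gam G k := by
  induction k with
  | zero => exact mem0 _
  | succ k ih => have := gam_comm (mem0 g) ih; rwa [Nat.zero_add] at this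

theorem cls_itc (g z : G) (k : ℕ) :
    cls k (itc g z k) = (fun v => ⁅cls 0 g, v⁆)^[k] (cls 0 z) := by
  induction k with
  | zero => rfl
  | succ k ih =>
    rw [Function.iterate_succ_apply', ← ih, lie_cls (mem0 g) (itc_mem g z k), Nat.zero_add]; rfl

section Z

variable (z : G)

/-- The normal closure of `z`. -/
abbrev NZ : Subgroup G := Subgroup.normalClosure {z}

theorem z_mem : z ∈ NZ z := Subgroup.subset_normalClosure rfl

theorem NZ_ind {P : NZ z → Prop} (h1 : P 1) (hmul : ∀ a b, P a → P b → P (a * b))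
    (hinv : ∀ a, P a → P a⁻¹) (hc : ∀ (h : G) (a : NZ z), (a : G) = h * z * h⁻¹ → P a)
    (a : NZ z) : P a := by
  obtain ⟨a, ha⟩ := a
  induction ha using Subgroup.closure_induction with
  | mem y hy =>
    obtain ⟨b, hb, hc'⟩ := Group.mem_conjugatesOfSet_iff.1 hy
    obtain ⟨h, hh⟩ := isConj_iff.1 hc'
    have hb' : b = z := hb
    exact hc h ⟨y, Subgroup.subset_closure hy⟩ (hh.symm.trans (by rw [hb']))
  | one => exact h1
  | mul a b ha hb h h' => exact hmul ⟨a, ha⟩ ⟨b, hb⟩ h h'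
  | inv a ha h => exact hinv ⟨a, ha⟩ h

theorem NZ_gam (k : ℕ) : ∀ n : NZ z, n ∈ gam (NZ z) (k + 1) → (n : G) ∈ gam G (k + 2) := by
  have h0 : ∀ n : NZ z, ∃ m : ℤ, cls 0 (n : G) = m • cls 0 z := by
    refine NZ_ind z ⟨0, by simp [cls_one]⟩ ?_ ?_ ?_
    · rintro a b ⟨m, hm⟩ ⟨m', hm'⟩
      exact ⟨m + m', by rw [Subgroup.coe_mul, cls_mul (mem0 _) (mem0 _), hm, hm', add_zsmul]⟩
    · rintro a ⟨m, hm⟩
      exact ⟨-m, by rw [Subgroup.coe_inv, cls_inv (mem0 _), hm, neg_zsmul]⟩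
    · intro h a ha
      exact ⟨1, by rw [ha, cls_conj (mem0 _), one_zsmul]⟩
  induction k with
  | zero =>
    intro n hn
    refine gam_succ_ind (P := fun n : NZ z => (n : G) ∈ gam G 2) (one_mem _)
      (fun a b _ _ h h' => mul_mem h h') (fun a _ h => inv_mem h) ?_ hn
    intro a b _
    obtain ⟨m, hm⟩ := h0 a
    obtain ⟨m', hm'⟩ := h0 b
    have h1 := gam_comm (mem0 (a : G)) (mem0 (b : G))
    have h2 : cls (0 + 1) ⁅(a : G), (b : G)⁆ = 0 := by
      rw [cls_comm0 (mem0 (a : G)), hm, hm', zsmul_lie, lie_zsmul, lie_self, smul_zero, smul_zero]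
    exact (cls_eq_zero_iff h1).1 h2
  | succ k ih =>
    intro n hn
    refine gam_succ_ind (P := fun n : NZ z => (n : G) ∈ gam G (k + 1 + 2)) (one_mem _)
      (fun a b _ _ h h' => mul_mem h h') (fun a _ h => inv_mem h) ?_ hn
    intro a b ha
    have h1 := gam_comm (ih a ha) (mem0 (b : G))
    exact h1

theorem itc_two {p : ℕ} (hp : p.Prime) (he : ∀ g : G, g ^ p = 1) (g : G) :
    ∃ n ∈ gam (NZ z) 1, (n : G) = itc g z (p - 1) := by
  let T : NZ z →* NZ z := (MulAut.conjNormal g).toMonoidHom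
  have hT : ∀ n : NZ z, (T n : G) = g * n * g⁻¹ := fun n => MulAut.conjNormal_apply g n
  let τ : Module.End ℤ (AL (NZ z)) := (ind T).toLinearMap
  have hτ : ∀ n : NZ z, τ (cls 0 n) = cls 0 (T n) := fun n => ind_cls T (mem0 n)
  let z0 : NZ z := ⟨z, z_mem z⟩
  have hu : ∀ k, ∃ n : NZ z, (n : G) = itc g z k ∧ cls 0 n = ((τ - 1) ^ k) (cls 0 z0) := by
    intro k
    induction k with
    | zero => exact ⟨z0, rfl, by simp⟩
    | succ k ih =>
      obtain ⟨n, h1, h2⟩ := ih
      refine ⟨T n * n⁻¹, ?_, ?_⟩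
      · rw [Subgroup.coe_mul, hT, Subgroup.coe_inv, h1]; rfl
      · rw [pow_succ', Module.End.mul_apply, ← h2, cls_mul (mem0 _) (mem0 _), cls_inv (mem0 _),
          LinearMap.sub_apply, hτ, sub_eq_add_neg]; rfl
  have hq : ∀ k, ∃ n : NZ z, (n : G) = (z * g) ^ k * (g ^ k)⁻¹ ∧
      cls 0 n = (∑ i ∈ range k, τ ^ i) (cls 0 z0) := by
    intro k
    induction k with
    | zero => exact ⟨1, by simp, by simp [cls_one]⟩
    | succ k ih =>
      obtain ⟨n, h1, h2⟩ := ih
      refine ⟨z0 * T n, ?_, ?_⟩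
      · rw [Subgroup.coe_mul, hT, h1, pow_succ' (z * g), pow_succ' g]
        simp [z0, mul_assoc]
      · rw [cls_mul (mem0 _) (mem0 _), ← hτ, h2, sum_range_succ', LinearMap.add_apply, add_comm]
        congr 1
        rw [← Module.End.mul_apply, mul_sum]
        simp only [pow_succ']
  obtain ⟨n, h1, h2⟩ := hu (p - 1)
  obtain ⟨m, h3, h4⟩ := hq p
  have hm : m = 1 := Subtype.ext (by rw [h3, he, he]; simp)
  rw [hm, cls_one] at h4
  refine ⟨n, (cls_eq_zero_iff (mem0 n)).1 ?_, h1⟩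
  obtain ⟨q, hq'⟩ := poly_id hp
  have h5 := congrArg (aeval τ) hq'
  simp only [map_pow, map_sub, aeval_X, map_one, map_add, map_sum, map_nsmul] at h5
  have heZ : ∀ n : NZ z, n ^ p = 1 := fun n => Subtype.ext (he n)
  rw [h2, h5, LinearMap.add_apply, ← h4, zero_add, LinearMap.smul_apply, al_torsion heZ]

end Z

theorem FreeOn.engel_gen {x : ℕ → G} (hx : FreeOn x) {p : ℕ} (hp : p.Prime)
    (he : ∀ g : G, g ^ p = 1) : itc (x 1) (x 0) (p - 1) ∈ gam G p := by
  classical
  obtain ⟨r, hr⟩ := exists_root hp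
  obtain ⟨α, hα⟩ := hx.ext fun m => if m = 0 then x 0 ^ r else x m
  have hα0 : α (x 0) = x 0 ^ r := by rw [hα, if_pos rfl]
  have hα1 : α (x 1) = x 1 := by rw [hα, if_neg one_ne_zero]
  have hdev : ∀ h, dev α h ∈ NZ (x 0) := by
    refine hx.grp_ind (by simp [dev]) ?_ ?_ ?_
    · intro a b h h'; rw [dev_mul]
      exact mul_mem h (Subgroup.Normal.conj_mem inferInstance _ h' a)
    · intro a h; rw [dev_inv]; exact Subgroup.Normal.conj_mem inferInstance _ (inv_mem h) _
    · intro m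
      rw [dev, hα]
      split_ifs with hm
      · rw [hm]; exact mul_mem (pow_mem (z_mem _) r) (inv_mem (z_mem _))
      · simp
  have hαZ : ∀ n : NZ (x 0), α n ∈ NZ (x 0) := fun n => by
    have := mul_mem (hdev n) n.2
    simpa [dev] using this
  let β : NZ (x 0) →* NZ (x 0) := (α.comp (NZ (x 0)).subtype).codRestrict _ hαZ
  have hβ : ∀ n : NZ (x 0), (β n : G) = α n := fun n => rfl
  have hA : ∀ n : NZ (x 0), cls 0 (β n) = r • cls 0 n := by
    refine NZ_ind _ (by simp [cls_one]) ?_ ?_ ?_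
    · intro a b h h'
      rw [map_mul, cls_mul (mem0 _) (mem0 _), cls_mul (mem0 _) (mem0 _), h, h', nsmul_add]
    · intro a h
      rw [map_inv, cls_inv (mem0 _), cls_inv (mem0 _), h, neg_nsmul]
    · intro h a ha
      have e : β a = ⟨dev α h, hdev h⟩ * a ^ r * (⟨dev α h, hdev h⟩ : NZ (x 0))⁻¹ := by
        apply Subtype.ext
        rw [hβ, Subgroup.coe_mul, Subgroup.coe_mul, Subgroup.coe_inv, SubgroupClass.coe_pow, ha,
          conj_pow]
        simp [dev, hα0, mul_assoc]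
      rw [e, cls_conj (mem0 _), cls_pow (mem0 _)]
  have hB : ∀ k (n : NZ (x 0)), n ∈ gam (NZ (x 0)) k → cls k (β n) = r ^ (k + 1) • cls k n := by
    intro k
    induction k with
    | zero => intro n _; rw [hA, Nat.zero_add, pow_one]
    | succ k ih =>
      intro n hn
      refine gam_succ_ind (P := fun n => cls (k + 1) (β n) = r ^ (k + 1 + 1) • cls (k + 1) n)
        (by simp [cls_one]) ?_ ?_ ?_ hn
      · intro a b ha hb h h'
        rw [map_mul, cls_mul (gam_map β ha) (gam_map β hb), cls_mul ha hb, h, h', nsmul_add]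
      · intro a ha h
        rw [map_inv, cls_inv (gam_map β ha), cls_inv ha, h, neg_nsmul]
      · intro a b ha
        rw [map_commutatorElement, cls_comm0 (gam_map β ha), cls_comm0 ha, ih a ha, hA, nsmul_lie,
          lie_nsmul, ← mul_nsmul', ← pow_succ]
  set U := itc (x 1) (x 0) (p - 1) with hU
  have hUm : U ∈ gam G (p - 1) := itc_mem _ _ _
  have hD : cls (p - 1) (α U) = r • cls (p - 1) U := by
    have : ∀ k, cls k (α (itc (x 1) (x 0) k)) = r • cls k (itc (x 1) (x 0) k) := by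
      intro k
      induction k with
      | zero => rw [itc, hα0, cls_pow (mem0 _)]
      | succ k ih =>
        have h1 := lie_cls (mem0 (x 1)) (gam_map α (itc_mem (x 1) (x 0) k))
        have h2 := lie_cls (mem0 (x 1)) (itc_mem (x 1) (x 0) k)
        rw [Nat.zero_add] at h1 h2
        rw [itc, map_commutatorElement, hα1, ← h1, ← h2, ih, lie_nsmul]
    exact this _
  let π := QuotientGroup.mk' (gam G p)
  have hπ : ∀ a b : G, π a = π b ↔ a⁻¹ * b ∈ gam G p := fun a b => QuotientGroup.eq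
  have hπU : π (α U) = π U ^ r := by
    rw [← map_pow, hπ]
    have h1 := mul_mem (inv_mem (gam_map α hUm)) (pow_mem hUm r)
    have := (cls_eq_zero_iff h1).1 (by
      rw [cls_mul (inv_mem (gam_map α hUm)) (pow_mem hUm r), cls_inv (gam_map α hUm), hD,
        cls_pow hUm, neg_add_cancel])
    rwa [Nat.sub_add_cancel hp.one_le] at this
  have main : ∀ k, k + 2 ≤ p → ∃ n ∈ gam (NZ (x 0)) (k + 1), π U = π n := by
    intro k
    induction k with
    | zero =>
      intro _
      obtain ⟨n, h1, h2⟩ := itc_two (x 0) hp he (x 1)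
      exact ⟨n, h1, by rw [h2]⟩
    | succ k ih =>
      intro hk
      obtain ⟨n, h1, h2⟩ := ih (by omega)
      obtain ⟨s, hs⟩ := hr (k + 1) (by omega) hk
      have h3 := mul_mem (inv_mem (pow_mem h1 (r ^ (k + 1 + 1)))) (gam_map β h1)
      have h4 := (cls_eq_zero_iff h3).1 (by
        rw [cls_mul (inv_mem (pow_mem h1 _)) (gam_map β h1), cls_inv (pow_mem h1 _), hB _ _ h1,
          cls_pow h1, neg_add_cancel])
      refine ⟨_, zpow_mem h4 s, ?_⟩
      have h5 : π (α n) = π n ^ r := by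
        rw [← h2, ← hπU, hπ, ← map_inv, ← map_mul]
        exact gam_map α ((hπ _ _).1 h2.symm)
      have h6 : π n ^ p = 1 := by rw [← map_pow, he, map_one]
      rw [h2, SubgroupClass.coe_zpow, Subgroup.coe_mul, Subgroup.coe_inv, SubgroupClass.coe_pow,
        hβ, map_zpow, map_mul, map_inv, map_pow, h5, ← zpow_natCast, ← zpow_natCast, ← zpow_neg,
        ← zpow_add, ← zpow_mul, zpow_eq_zpow_emod' _ h6]
      have e : (-((r ^ (k + 1 + 1) : ℕ) : ℤ) + r) * s = s * (r - r ^ (k + 1 + 1)) := by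
        push_cast; ring
      rw [e, hs, ← zpow_eq_zpow_emod' _ h6, zpow_one]
  obtain ⟨n, h1, h2⟩ := main (p - 2) (by have := hp.two_le; omega)
  have h3 := NZ_gam (x 0) (p - 2) n h1
  rw [show p - 2 + 2 = p by have := hp.two_le; omega] at h3
  have h4 := mul_mem h3 ((hπ _ _).1 h2.symm)
  simpa using h4

theorem FreeOn.engel_one {x : ℕ → G} (hx : FreeOn x) {p : ℕ} (hp : p.Prime)
    (he : ∀ g : G, g ^ p = 1) (a b : G) : (fun v => ⁅cls 0 b, v⁆)^[p - 1] (cls 0 a) = 0 := by
  obtain ⟨θ, hθ⟩ := hx.ext fun m => if m = 0 then a else b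
  have h := gam_map θ (hx.engel_gen hp he)
  have e : ∀ k, θ (itc (x 1) (x 0) k) = itc b a k := by
    intro k
    induction k with
    | zero => rw [itc, hθ, if_pos rfl]; rfl
    | succ k ih => rw [itc, map_commutatorElement, ih, hθ, if_neg one_ne_zero]; rfl
  rw [e] at h
  rw [← cls_itc]
  exact cls_succ (by rwa [Nat.sub_add_cancel hp.one_le])

end Pool.Agent.MP_570645_al.H18
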