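import Pool.Agent.MP_570645_al.H18.Eng1

/-! The multilinear Engel identity in the associated Lie ring. -/

namespace Pool.Agent.MP_570645_al.H18

open Finset

section Lie

variable {A B : Type} [LieRing A] [LieRing B]

/-- `act [a, b, c] v = ⁅a, ⁅b, ⁅c, v⁆⁆⁆`. -/
def act (l : List A) (v : A) : A := l.foldr (fun h x => ⁅h, x⁆) v

theorem act_nil (v : A) : act [] v = v := rfl

theorem act_cons (h : A) (l : List A) (v : A) : act (h :: l) v = ⁅h, act l v⁆ := rfl

theorem act_append (l l' : List A) (v : A) : act (l ++ l') v = act l (act l' v) :=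
  List.foldr_append

theorem act_add (l : List A) (v w : A) : act l (v + w) = act l v + act l w := by
  induction l with
  | nil => rfl
  | cons h l ih => rw [act_cons, act_cons, act_cons, ih, lie_add]

theorem act_zero (l : List A) : act l 0 = 0 := by
  induction l with
  | nil => rfl
  | cons h l ih => rw [act_cons, ih, lie_zero]

theorem act_neg (l : List A) (v : A) : act l (-v) = -act l v := by
  rw [eq_neg_iff_add_eq_zero, ← act_add, neg_add_cancel, act_zero]

theorem map_act (φ : A →ₗ⁅ℤ⁆ B) (l : List A) (v : A) : φ (act l v) = act (l.map φ) (φ v) := by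
  induction l with
  | nil => rfl
  | cons h l ih => rw [act_cons, LieHom.map_lie, ih, List.map_cons, act_cons]

/-- The multilinear Engel identity. -/
def Engel (n : ℕ) (A : Type) [LieRing A] : Prop :=
  ∀ (a : Fin n → A) (v : A), ∑ σ : Equiv.Perm (Fin n), act (List.ofFn (a ∘ σ)) v = 0

theorem Engel.map {n : ℕ} (h : Engel n A) (φ : A →ₗ⁅ℤ⁆ B) (hφ : Function.Surjective φ) :
    Engel n B := by
  intro a v
  obtain ⟨v, rfl⟩ := hφ v
  choose b hb using fun i => hφ (a i)
  have := congrArg φ (h b v)
  rw [map_sum, map_zero] at this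
  rw [← this]
  refine sum_congr rfl fun σ _ => ?_
  rw [map_act, List.map_ofFn]
  congr 2
  funext i
  exact (hb _).symm

theorem polar {n : ℕ} (μ : MultilinearMap ℤ (fun _ : Fin n => A) A) (a : Fin n → A)
    (h : ∀ S : Finset (Fin n), μ (fun _ => ∑ j ∈ S, a j) = 0) :
    ∑ σ : Equiv.Perm (Fin n), μ (a ∘ σ) = 0 := by
  classical
  let F : Finset (Fin n) → A := fun T =>
    ∑ r ∈ univ.filter (fun r : Fin n → Fin n => image r univ = T), μ (a ∘ r)
  have h1 : ∀ S : Finset (Fin n), ∑ T ∈ S.powerset, F T = 0 := by
    intro S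
    rw [← h S, μ.map_sum_finset (fun _ j => a j) (fun _ => S),
      ← sum_fiberwise_of_maps_to (g := fun r : Fin n → Fin n => image r univ) (t := S.powerset)
        (fun r hr => by
          rw [mem_powerset, image_subset_iff]
          exact fun i _ => Fintype.mem_piFinset.1 hr i)]
    refine sum_congr rfl fun T hT => sum_congr ?_ fun _ _ => rfl
    ext r
    simp only [mem_filter, mem_univ, true_and, Fintype.mem_piFinset]
    refine ⟨fun hr => ⟨fun i => mem_powerset.1 hT ?_, hr⟩, fun hr => hr.2⟩
    rw [← hr]; exact mem_image_of_mem r (mem_univ i)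
  have h2 : ∀ S, F S = 0 := by
    intro S
    induction S using Finset.strongInduction with
    | H S ih =>
      have := h1 S
      rw [← add_sum_erase _ _ (mem_powerset_self S), sum_eq_zero, add_zero] at this
      · exact this
      · intro T hT
        rw [mem_erase, mem_powerset] at hT
        exact ih T (ssubset_of_ne_of_subset hT.1 hT.2)
  rw [← h2 univ]
  refine sum_bij (fun σ _ => (σ : Fin n → Fin n)) ?_ ?_ ?_ fun _ _ => rfl
  · intro σ _
    simp only [mem_filter, mem_univ, true_and]
    exact image_univ_of_surjective σ.surjective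
  · intro σ _ τ _ h
    exact DFunLike.coe_injective h
  · intro r hr
    simp only [mem_filter, mem_univ, true_and] at hr
    have hs : Function.Surjective r := fun j => by
      have : j ∈ image r univ := by rw [hr]; exact mem_univ j
      obtain ⟨i, -, hi⟩ := mem_image.1 this
      exact ⟨i, hi⟩
    exact ⟨Equiv.ofBijective r (Finite.surjective_iff_bijective.1 hs), mem_univ _, rfl⟩

theorem exists_mu (n : ℕ) (v : A) : ∃ μ : MultilinearMap ℤ (fun _ : Fin n => A) A,
    ∀ a, μ a = act (List.ofFn a) v := by
  let adl : A →ₗ[ℤ] Module.End ℤ A :=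
    LinearMap.mk₂ ℤ (fun a b => ⁅a, b⁆) add_lie smul_lie lie_add lie_smul
  have h : ∀ l : List A, (l.map adl).prod v = act l v := fun l => by
    induction l with
    | nil => rfl
    | cons h l ih => rw [List.map_cons, List.prod_cons, Module.End.mul_apply, ih]; rfl
  refine ⟨(LinearMap.applyₗ v).compMultilinearMap
    ((MultilinearMap.mkPiAlgebraFin ℤ n (Module.End ℤ A)).compLinearMap fun _ => adl), fun a => ?_⟩
  rw [← h, List.map_ofFn]
  rfl

theorem act_replicate (n : ℕ) (b v : A) :
    act (List.replicate n b) v = (fun v => ⁅b, v⁆)^[n] v := by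
  induction n with
  | zero => rfl
  | succ n ih => rw [List.replicate_succ, act_cons, ih, Function.iterate_succ_apply']

theorem der_act (D : LieDerivation ℤ A A) (l : List A) (v : A) (hl : ∀ a ∈ l, D a = 0)
    (hv : D v = 0) : D (act l v) = 0 := by
  induction l with
  | nil => exact hv
  | cons h l ih =>
    rw [act_cons, LieDerivation.apply_lie_eq_add, ih fun a ha => hl a (List.mem_cons_of_mem _ ha),
      hl h List.mem_cons_self, lie_zero, zero_lie, add_zero]

theorem slot {ι : Type} [DecidableEq ι] (b : ι → A) (j k : ι) (l : List ι) (hl : (j :: l).Nodup)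
    (hk : k ∈ j :: l) : ∃ T : A →+ A,
      (∀ y, act (l.map (Function.update b k y)) (Function.update b k y j) = T y) ∧
      ∀ D : LieDerivation ℤ A A, (∀ i, i ≠ k → D (b i) = 0) → ∀ y, D (T y) = T (D y) := by
  induction l with
  | nil =>
    obtain rfl : k = j := by simpa using hk
    exact ⟨AddMonoidHom.id A, fun y => by simp [act_nil], fun _ _ _ => rfl⟩
  | cons i l ih =>
    simp only [List.nodup_cons, List.mem_cons, not_or] at hl
    by_cases hi : k = i
    · subst hi
      have hne : ∀ m ∈ l, m ≠ k := fun m hm h => hl.2.1 (h ▸ hm)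
      refine ⟨AddMonoidHom.mk' (fun y => ⁅y, act (l.map b) (b j)⁆) fun _ _ => add_lie _ _ _,
        fun y => ?_, fun D hD y => ?_⟩
      · rw [List.map_cons, act_cons, Function.update_self, Function.update_of_ne hl.1.1,
          List.map_congr_left fun m hm => Function.update_of_ne (hne m hm) y b]
        rfl
      · change D ⁅y, _⁆ = ⁅D y, _⁆
        rw [LieDerivation.apply_lie_eq_add, der_act D _ _ _ (hD j hl.1.1), lie_zero, zero_add]
        intro a ha
        obtain ⟨m, hm, rfl⟩ := List.mem_map.1 ha
        exact hD m (hne m hm)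
    · obtain ⟨T, h1, h2⟩ := ih (List.nodup_cons.2 ⟨hl.1.2, hl.2.2⟩) (by
        simp only [List.mem_cons] at hk ⊢
        tauto)
      refine ⟨AddMonoidHom.mk' (fun y => ⁅b i, T y⁆) fun _ _ => by rw [map_add, lie_add],
        fun y => ?_, fun D hD y => ?_⟩
      · rw [List.map_cons, act_cons, h1, Function.update_of_ne (Ne.symm hi)]
        rfl
      · change D ⁅b i, T y⁆ = ⁅b i, T (D y)⁆
        rw [LieDerivation.apply_lie_eq_add, h2 D hD, hD i (Ne.symm hi), zero_lie, add_zero]

/-- The symmetrised product with the entry `b 0` innermost. -/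
def WW {n : ℕ} (b : Fin (n + 1) → A) : A :=
  ∑ σ : Equiv.Perm (Fin n), act ((List.ofFn fun i => (σ i).succ).map b) (b 0)

theorem map_WW {n : ℕ} (φ : A →ₗ⁅ℤ⁆ B) (b : Fin (n + 1) → A) : φ (WW b) = WW (φ ∘ b) := by
  rw [WW, WW, map_sum]
  exact sum_congr rfl fun σ _ => by rw [map_act, List.map_map]; rfl

theorem WW_eq {n : ℕ} (b : Fin (n + 1) → A) :
    WW b = ∑ σ : Equiv.Perm (Fin n), act (List.ofFn ((fun i => b i.succ) ∘ σ)) (b 0) :=
  sum_congr rfl fun σ _ => by rw [List.map_ofFn]; rfl

theorem WW_slot {n : ℕ} (b : Fin (n + 1) → A) (k : Fin (n + 1)) : ∃ T : A →+ A,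
    (∀ y, WW (Function.update b k y) = T y) ∧
      ∀ D : LieDerivation ℤ A A, (∀ i, i ≠ k → D (b i) = 0) → ∀ y, D (T y) = T (D y) := by
  have := fun σ : Equiv.Perm (Fin n) => slot b 0 k (List.ofFn fun i => (σ i).succ)
    (List.nodup_cons.2 ⟨by simp [List.mem_ofFn], List.nodup_ofFn.2 fun i j h =>
      σ.injective (Fin.succ_injective _ h)⟩)
    (by
      rcases Fin.eq_zero_or_eq_succ k with rfl | ⟨m, rfl⟩
      · exact List.mem_cons_self
      · exact List.mem_cons_of_mem _ (List.mem_ofFn.2 ⟨σ.symm m, by simp⟩))
  choose T h1 h2 using this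
  refine ⟨∑ σ, T σ, fun y => ?_, fun D hD y => ?_⟩
  · rw [WW, AddMonoidHom.finsetSum_apply]
    exact sum_congr rfl fun σ _ => h1 σ y
  · rw [AddMonoidHom.finsetSum_apply, AddMonoidHom.finsetSum_apply, map_sum]
    exact sum_congr rfl fun σ _ => h2 σ D hD y

end Lie

variable {G : Type} [Group G]

theorem FreeOn.engel {x : ℕ → G} (hx : FreeOn x) {p : ℕ} (hp : p.Prime)
    (he : ∀ g : G, g ^ p = 1) : Engel (p - 1) (AL G) := by
  classical
  have base : ∀ g : Fin (p - 1 + 1) → G, WW (fun i => cls 0 (g i)) = 0 := by
    intro g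
    obtain ⟨μ, hμ⟩ := exists_mu (p - 1) (cls 0 (g 0))
    rw [WW_eq, ← polar μ (fun i => cls 0 (g i.succ)) fun S => ?_]
    · exact sum_congr rfl fun σ _ => (hμ _).symm
    · obtain ⟨b, hb⟩ : ∃ b : G, ∑ j ∈ S, cls 0 (g j.succ) = cls 0 b := by
        induction S using Finset.induction_on with
        | empty => exact ⟨1, by rw [sum_empty, cls_one]⟩
        | insert j S hj ih =>
          obtain ⟨b, hb⟩ := ih
          exact ⟨g j.succ * b, by rw [sum_insert hj, hb, cls_mul (mem0 _) (mem0 _)]⟩
      rw [hμ, hb, List.ofFn_const, act_replicate, hx.engel_one hp he]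
  obtain ⟨o, ho⟩ := hx.ext fun n => x (2 * n + 1)
  have key : ∀ u : Fin (p - 1 + 1) → AL G, WW u = 0 := by
    intro u
    choose g hg using fun n => AL_split (u n)
    have main : ∀ S : Finset (Fin (p - 1 + 1)), WW (fun i => cls 0 (x (2 * i)) +
        if i ∈ S then ind o (u i - cls 0 (g i)) else 0) = 0 := by
      intro S
      induction S using Finset.induction_on with
      | empty => simpa using base fun i => x (2 * i)
      | insert k S hk ih =>
        set b : Fin (p - 1 + 1) → AL G := fun i => cls 0 (x (2 * i)) +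
          if i ∈ S then ind o (u i - cls 0 (g i)) else 0 with hb
        obtain ⟨T, h1, h2⟩ := WW_slot b k
        have h3 : T (cls 0 (x (2 * k))) = 0 := by
          rw [← h1, ← ih]
          congr 1
          rw [Function.update_eq_self_iff, hb]
          simp [hk]
        have h4 : ∀ c ∈ AddSubmonoid.closure
            {b : AL G | ∃ w y, y ∈ gam G (w + 1) ∧ b = cls (w + 1) y}, T (ind o c) = 0 := by
          intro c hc
          induction hc using AddSubmonoid.closure_induction with
          | zero => rw [map_zero, map_zero]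
          | add c c' _ _ h h' => rw [map_add, map_add, h, h', add_zero]
          | mem c hc =>
            obtain ⟨w, y, hy, rfl⟩ := hc
            obtain ⟨D, hD1, hD2, hD3⟩ := hx.exists_der ho k (w + 1) (by omega) hy
            rw [← hD1, ← h2 D, h3, map_zero]
            intro i hi
            have : (i : ℕ) ≠ k := fun h => hi (Fin.ext h)
            simp only [hb]
            rw [map_add, hD2 _ (by omega), zero_add]
            split_ifs
            · exact hD3 _
            · exact map_zero _
        have e : (fun i : Fin (p - 1 + 1) => cls 0 (x (2 * i)) +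
            if i ∈ insert k S then ind o (u i - cls 0 (g i)) else 0) =
            Function.update b k (cls 0 (x (2 * k)) + ind o (u k - cls 0 (g k))) := by
          funext i
          by_cases hi : i = k
          · subst hi; simp
          · simp [hi, hb]
        rw [e, h1, map_add, h3, h4 _ (hg k), add_zero]
    obtain ⟨κ, hκ⟩ := hx.ext fun m =>
      if m % 2 = 0 then (if h : m / 2 < p - 1 + 1 then g ⟨m / 2, h⟩ else 1) else x (m / 2)
    have hκo : ∀ a, ind κ (ind o a) = a :=
      hx.lie_ext (φ := (ind κ).comp (ind o)) (ψ := LieHom.id) fun m => by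
        rw [LieHom.comp_apply, ind_cls o (mem0 _), ho, ind_cls κ (mem0 _), hκ, if_neg (by omega),
          show (2 * m + 1) / 2 = m by omega]; rfl
    have h := congrArg (ind κ) (main univ)
    rw [map_WW, map_zero] at h
    rw [← h]
    congr 1
    funext i
    have h5 : κ (x (2 * i)) = g i := by
      have e : 2 * (i : ℕ) / 2 = i := by omega
      rw [hκ, if_pos (by omega), dif_pos (by rw [e]; exact i.2)]
      congr 1
      exact Fin.ext e
    simp only [Function.comp_apply, mem_univ, if_true]
    rw [map_add, hκo, ind_cls κ (mem0 _), h5, add_sub_cancel]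
  intro a v
  have := key (Fin.cons v a)
  rw [WW_eq] at this
  simpa using this

end Pool.Agent.MP_570645_al.H18
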