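import Pool.Agent.MP_570645_al.H18.Maps

/-! The truncated exponential of the Johnson derivation, and relative freeness of quotients. -/

namespace Pool.Agent.MP_570645_al.H18

open Finset

section Lie

variable {A B : Type} [LieRing A] [LieRing B]

theorem Prd.map (φ : A →ₗ⁅ℤ⁆ B) {c : A} {k : ℕ} {v : A} (h : Prd c k v) : Prd (φ c) k (φ v) := by
  induction h with
  | other y => exact Prd.other _
  | self => exact Prd.self
  | lie _ _ h h' => rw [LieHom.map_lie]; exact Prd.lie h h'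

theorem Prd.lift (φ : A →ₗ⁅ℤ⁆ B) (hφ : Function.Surjective φ) {c : A} {k : ℕ} {w : B}
    (h : Prd (φ c) k w) : ∃ v, Prd c k v ∧ φ v = w := by
  induction h with
  | other y => obtain ⟨v, rfl⟩ := hφ y; exact ⟨v, Prd.other _, rfl⟩
  | self => exact ⟨c, Prd.self, rfl⟩
  | lie _ _ h h' =>
    obtain ⟨v, hv, rfl⟩ := h
    obtain ⟨v', hv', rfl⟩ := h'
    exact ⟨⁅v, v'⁆, Prd.lie hv hv', LieHom.map_lie _ _ _⟩

theorem Prd.mono {c : A} {k : ℕ} {v : A} (h : Prd c k v) : ∀ j ≤ k, Prd c j v := by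
  induction h with
  | other y => intro j hj; obtain rfl : j = 0 := by omega
               exact Prd.other _
  | self =>
    intro j hj
    rcases Nat.le_one_iff_eq_zero_or_eq_one.1 hj with rfl | rfl
    · exact Prd.other _
    · exact Prd.self
  | @lie i i' _ _ _ _ h h' =>
    intro j hj
    have := Prd.lie (h (min j i) (min_le_right _ _)) (h' (j - min j i) (by omega))
    rwa [show min j i + (j - min j i) = j by omega] at this

/-- The additive span of the products with `k` entries `c`. -/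
def PS (c : A) (k : ℕ) : AddSubgroup A := AddSubgroup.closure {v | Prd c k v}

theorem PS_lie {c : A} {i j : ℕ} {a b : A} (ha : a ∈ PS c i) (hb : b ∈ PS c j) :
    ⁅a, b⁆ ∈ PS c (i + j) := by
  induction ha using AddSubgroup.closure_induction with
  | zero => rw [zero_lie]; exact zero_mem _
  | add a a' _ _ h h' => rw [add_lie]; exact add_mem h h'
  | neg a _ h => rw [neg_lie]; exact neg_mem h
  | mem a ha =>
    induction hb using AddSubgroup.closure_induction with
    | zero => rw [lie_zero]; exact zero_mem _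
    | add b b' _ _ h h' => rw [lie_add]; exact add_mem h h'
    | neg b _ h => rw [lie_neg]; exact neg_mem h
    | mem b hb => exact AddSubgroup.subset_closure (Prd.lie ha hb)

theorem PS_le_NI {c : A} (hc : c ∈ LieAlgebra.derivedSeries ℤ A 1) {p k : ℕ} (hk : p ≤ k) {a : A}
    (ha : a ∈ PS c k) : a ∈ NI p A := by
  induction ha using AddSubgroup.closure_induction with
  | zero => exact zero_mem _
  | add a a' _ _ h h' => exact add_mem h h'
  | neg a _ h => exact neg_mem h
  | mem a ha => exact LieSubmodule.subset_lieSpan ⟨c, hc, Prd.mono ha p hk⟩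

/-- The quotient map as a morphism of Lie rings. -/
def qm (J : LieIdeal ℤ A) : A →ₗ⁅ℤ⁆ A ⧸ J :=
  mkLie (LieSubmodule.Quotient.mk' J).toLinearMap.toAddMonoidHom fun _ _ => rfl

theorem qm_surj (J : LieIdeal ℤ A) : Function.Surjective (qm J) :=
  LieSubmodule.Quotient.surjective_mk' J

theorem qm_eq_zero (J : LieIdeal ℤ A) {a : A} : qm J a = 0 ↔ a ∈ J :=
  LieSubmodule.Quotient.mk_eq_zero J

theorem nsmul_congr {p a b : ℕ} {x : B} (hx : p • x = 0) (h : (a : ZMod p) = b) :
    a • x = b • x := by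
  rw [nsmul_eq_mod_nsmul a hx, nsmul_eq_mod_nsmul b hx, (ZMod.natCast_eq_natCast_iff' a b p).1 h]

theorem exists_exp {p : ℕ} (hp : p.Prime) (ht : ∀ a : A, p • a = 0) (D : LieDerivation ℤ A A)
    (ψ : A →ₗ⁅ℤ⁆ B) (hk : ∀ a b i j, p ≤ i + j → ψ ⁅D^[i] a, D^[j] b⁆ = 0) :
    ∃ ψ' : A →ₗ⁅ℤ⁆ B, ∀ a, D (D a) = 0 → ψ' a = ψ a + ψ (D a) := by
  have := Fact.mk hp
  set r : ℕ → ℕ := fun k => ((k.factorial : ZMod p)⁻¹).val with hr
  have hrc : ∀ k, (r k : ZMod p) = (k.factorial : ZMod p)⁻¹ := fun k => ZMod.natCast_zmod_val _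
  have hf : ∀ k < p, (k.factorial : ZMod p) ≠ 0 := fun k hk h => by
    rw [ZMod.natCast_eq_zero_iff, hp.dvd_factorial] at h
    omega
  have htB : ∀ a, p • ψ a = 0 := fun a => by rw [← map_nsmul, ht, map_zero]
  have hadd : ∀ k a b, D^[k] (a + b) = D^[k] a + D^[k] b := fun k => by
    induction k with
    | zero => intro a b; rfl
    | succ k ih => intro a b; simp only [Function.iterate_succ_apply', ih, map_add]
  set e : A →+ B := AddMonoidHom.mk' (fun a => ∑ k ∈ range p, r k • ψ (D^[k] a)) fun a b => by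
    simp only [hadd, map_add, nsmul_add, sum_add_distrib] with he
  have hev : ∀ a, e a = ∑ k ∈ range p, r k • ψ (D^[k] a) := fun a => rfl
  refine ⟨mkLie e fun a b => ?_, fun a ha => ?_⟩
  · set f : ℕ → ℕ → B := fun i j => (r i * r j) • ψ ⁅D^[i] a, D^[j] b⁆ with hfd
    have h1 : e ⁅a, b⁆ = ∑ k ∈ range p, ∑ i ∈ range (k + 1), f i (k - i) := by
      rw [hev]
      refine sum_congr rfl fun k hk => ?_
      rw [LieDerivation.iterate_apply_lie', map_sum, smul_sum]
      refine sum_congr rfl fun i hi => ?_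
      rw [mem_range] at hk hi
      rw [map_nsmul, ← mul_nsmul']
      refine nsmul_congr (htB _) ?_
      have h := Nat.choose_mul_factorial_mul_factorial (show i ≤ k by omega)
      have h' : (k.factorial : ZMod p) = k.choose i * i.factorial * (k - i).factorial := by
        rw [← h]; push_cast; rfl
      have h2 := hf i (by omega)
      have h3 := hf (k - i) (by omega)
      have h4 := hf k hk
      push_cast
      rw [hrc, hrc, hrc]
      field_simp
      rw [h']
    have h2 : ⁅e a, e b⁆ = ∑ i ∈ range p, ∑ j ∈ range p, f i j := by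
      rw [hev, hev, sum_lie]
      refine sum_congr rfl fun i _ => ?_
      rw [lie_sum]
      refine sum_congr rfl fun j _ => ?_
      rw [nsmul_lie, lie_nsmul, ← LieHom.map_lie, ← mul_nsmul']
    rw [h1, h2, sum_range_diag_flip]
    refine sum_congr rfl fun i hi => sum_subset (range_subset_range.2 (Nat.sub_le _ _)) ?_
    intro j _ hj
    rw [mem_range] at hj
    simp only [hfd]
    rw [hk a b i j (by omega), nsmul_zero]
  · rw [mkLie_apply, hev]
    obtain ⟨q, rfl⟩ : ∃ q, p = q + 2 := ⟨p - 2, by have := hp.two_le; omega⟩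
    have hz : ∀ k, D^[k + 2] a = 0 := fun k => by
      induction k with
      | zero => exact ha
      | succ k ih => rw [show k + 1 + 2 = (k + 2) + 1 by omega, Function.iterate_succ_apply', ih,
          map_zero]
    rw [sum_range_succ', sum_range_succ', sum_eq_zero fun k _ => by
      rw [show k + 1 + 1 = k + 2 by omega, hz, map_zero, nsmul_zero]]
    rw [nsmul_congr (a := r 0) (b := 1) (htB _) (by rw [hrc]; simp),
      nsmul_congr (a := r (0 + 1)) (b := 1) (htB _) (by rw [hrc]; simp)]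
    simp [add_comm]

end Lie

variable {G : Type} [Group G]

theorem FreeOn.iter_mem {x : ℕ → G} (hx : FreeOn x) (D : LieDerivation ℤ (AL G) (AL G))
    {c : AL G} (hc : D c = 0) (hD : ∀ n, D (cls 0 (x n)) = c ∨ D (cls 0 (x n)) = 0) (a : AL G) :
    ∀ i, D^[i] a ∈ PS c i := by
  have hz : ∀ i, D^[i] 0 = 0 := fun i => Function.iterate_fixed (map_zero D) i
  refine hx.al_ind (P := fun a => ∀ i, D^[i] a ∈ PS c i) ?_ ?_ ?_ ?_ ?_ a
  · intro i; rw [hz]; exact zero_mem _
  · intro a b h h' i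
    have : ∀ k, D^[k] (a + b) = D^[k] a + D^[k] b := fun k => by
      induction k with
      | zero => rfl
      | succ k ih => simp only [Function.iterate_succ_apply', ih, map_add]
    rw [this]; exact add_mem (h i) (h' i)
  · intro a h i
    have : ∀ k, D^[k] (-a) = -D^[k] a := fun k => by
      induction k with
      | zero => rfl
      | succ k ih => simp only [Function.iterate_succ_apply', ih, map_neg]
    rw [this]; exact neg_mem (h i)
  · intro a b h h' i
    rw [LieDerivation.iterate_apply_lie]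
    refine sum_mem fun ij hij => nsmul_mem ?_ _
    rw [← mem_antidiagonal.1 hij]
    exact PS_lie (h _) (h' _)
  · intro n i
    rcases i with _ | i
    · exact AddSubgroup.subset_closure (Prd.other _)
    rw [Function.iterate_succ_apply]
    rcases hD n with h | h
    · rw [h]
      rcases i with _ | i
      · exact AddSubgroup.subset_closure Prd.self
      · rw [Function.iterate_succ_apply, hc, hz]; exact zero_mem _
    · rw [h, hz]; exact zero_mem _

theorem AL_split (a : AL G) : ∃ g : G,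
    a - cls 0 g ∈ AddSubmonoid.closure {b : AL G | ∃ w y, y ∈ gam G (w + 1) ∧ b = cls (w + 1) y} := by
  induction a using AL_ind with
  | h0 => exact ⟨1, by rw [cls_one, sub_zero]; exact zero_mem _⟩
  | hadd a b h h' =>
    obtain ⟨g, hg⟩ := h
    obtain ⟨g', hg'⟩ := h'
    refine ⟨g * g', ?_⟩
    rw [cls_mul (mem0 g) (mem0 g'), ← sub_add_sub_comm]
    exact add_mem hg hg'
  | hc i y hy =>
    rcases i with _ | i
    · exact ⟨y, by rw [sub_self]; exact zero_mem _⟩
    · exact ⟨1, by rw [cls_one, sub_zero]; exact AddSubmonoid.subset_closure ⟨i, y, hy, rfl⟩⟩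

section Quot

variable {x : ℕ → G} (hx : FreeOn x) {p : ℕ} (hp : p.Prime) (he : ∀ g : G, g ^ p = 1)
  (J : LieIdeal ℤ (AL G)) (hN : NI p (AL G) ≤ J)
  (hJ : ∀ ψ : AL G →ₗ⁅ℤ⁆ AL G ⧸ J, ∀ a ∈ J, ψ a = 0)

include hx hp he hN hJ

theorem exists_fin (u : ℕ → AL G) (S : Finset ℕ) :
    ∃ ψ : AL G →ₗ⁅ℤ⁆ AL G ⧸ J, ∀ n ∈ S, ψ (cls 0 (x n)) = qm J (u n) := by
  classical
  obtain ⟨o, ho⟩ := hx.ext fun n => x (2 * n + 1)
  obtain ⟨ev, hev⟩ := hx.ext fun n => x (2 * n)
  choose g hg using fun n => AL_split (u n)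
  let V : (ℕ → AL G ⧸ J) → Prop := fun t => ∃ ψ : AL G →ₗ⁅ℤ⁆ AL G ⧸ J,
    (∀ m, ψ (cls 0 (x (2 * m))) = t m) ∧ ∀ m, ψ (cls 0 (x (2 * m + 1))) = qm J (cls 0 (x m))
  have step : ∀ b ∈ AddSubmonoid.closure
      {b : AL G | ∃ w y, y ∈ gam G (w + 1) ∧ b = cls (w + 1) y},
      ∀ n t, V t → V (Function.update t n (t n + qm J b)) := by
    intro b hb n
    induction hb using AddSubmonoid.closure_induction with
    | zero => intro t h; simpa using h
    | add b b' _ _ h h' =>
      intro t ht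
      have := h' _ (h t ht)
      simpa [add_assoc] using this
    | mem b hb =>
      obtain ⟨w, y, hy, rfl⟩ := hb
      rintro t ⟨ψ, h1, h2⟩
      obtain ⟨D, hD1, hD2, hD3⟩ := hx.exists_der ho n (w + 1) (by omega) hy
      have hcd : ind o (cls (w + 1) y) ∈ LieAlgebra.derivedSeries ℤ (AL G) 1 := by
        rw [ind_cls o hy]; exact cls_mem_derived (gam_map o hy)
      have hit := hx.iter_mem D (hD3 (cls (w + 1) y)) fun m => by
        by_cases hm : m = 2 * n
        · left; rw [hm]; exact hD1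
        · right; exact hD2 m hm
      obtain ⟨ψ', hψ'⟩ := exists_exp hp (al_torsion he) D ψ fun a b i j hij =>
        hJ ψ _ (hN (PS_le_NI hcd hij (PS_lie (hit a i) (hit b j))))
      have hψo : ∀ a, ψ (ind o a) = qm J a := hx.lie_ext (φ := ψ.comp (ind o)) fun m => by
        rw [LieHom.comp_apply, ind_cls o (mem0 _), ho, h2]
      refine ⟨ψ', fun m => ?_, fun m => ?_⟩
      · by_cases hm : m = n
        · subst hm
          rw [hψ' _ (by rw [hD1, hD3]), hD1, hψo, h1, Function.update_self]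
        · have := hD2 (2 * m) (by omega)
          rw [hψ' _ (by rw [this, map_zero]), this, map_zero, add_zero, h1,
            Function.update_of_ne hm]
      · have := hD2 (2 * m + 1) (by omega)
        rw [hψ' _ (by rw [this, map_zero]), this, map_zero, add_zero, h2]
  have main : V fun n => if n ∈ S then qm J (u n) else qm J (cls 0 (g n)) := by
    induction S using Finset.induction_on with
    | empty =>
      obtain ⟨κ, hκ⟩ := hx.ext fun m => if m % 2 = 0 then g (m / 2) else x (m / 2)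
      refine ⟨(qm J).comp (ind κ), fun m => ?_, fun m => ?_⟩
      · rw [LieHom.comp_apply, ind_cls κ (mem0 _), hκ, if_pos (by omega),
          show 2 * m / 2 = m by omega]
        simp
      · rw [LieHom.comp_apply, ind_cls κ (mem0 _), hκ, if_neg (by omega),
          show (2 * m + 1) / 2 = m by omega]
    | insert n S hn ih =>
      have := step _ (hg n) n _ ih
      have e : (fun m => if m ∈ insert n S then qm J (u m) else qm J (cls 0 (g m))) =
          Function.update (fun m => if m ∈ S then qm J (u m) else qm J (cls 0 (g m))) n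
            ((if n ∈ S then qm J (u n) else qm J (cls 0 (g n))) + qm J (u n - cls 0 (g n))) := by
        funext m
        by_cases hm : m = n
        · subst hm; simp [hn]
        · simp [hm]
      rw [e]; exact this
  obtain ⟨ψ, h1, -⟩ := main
  refine ⟨ψ.comp (ind ev), fun n hn => ?_⟩
  rw [LieHom.comp_apply, ind_cls ev (mem0 _), hev, h1]
  exact if_pos hn

theorem exists_all (u : ℕ → AL G) :
    ∃ ψ : AL G →ₗ⁅ℤ⁆ AL G ⧸ J, ∀ n, ψ (cls 0 (x n)) = qm J (u n) := by
  classical
  have key : ∀ a : AL G, ∃ (S : Finset ℕ) (m : AL G ⧸ J), ∀ ψ : AL G →ₗ⁅ℤ⁆ AL G ⧸ J,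
      (∀ n ∈ S, ψ (cls 0 (x n)) = qm J (u n)) → ψ a = m := by
    refine hx.al_ind ⟨∅, 0, fun ψ _ => map_zero ψ⟩ ?_ ?_ ?_ ?_
    · rintro a b ⟨S, m, h⟩ ⟨S', m', h'⟩
      exact ⟨S ∪ S', m + m', fun ψ hψ => by
        rw [map_add, h ψ fun n hn => hψ n (mem_union_left _ hn),
          h' ψ fun n hn => hψ n (mem_union_right _ hn)]⟩
    · rintro a ⟨S, m, h⟩
      exact ⟨S, -m, fun ψ hψ => by rw [map_neg, h ψ hψ]⟩
    · rintro a b ⟨S, m, h⟩ ⟨S', m', h'⟩
      exact ⟨S ∪ S', ⁅m, m'⁆, fun ψ hψ => by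
        rw [LieHom.map_lie, h ψ fun n hn => hψ n (mem_union_left _ hn),
          h' ψ fun n hn => hψ n (mem_union_right _ hn)]⟩
    · intro n
      exact ⟨{n}, qm J (u n), fun ψ hψ => hψ n (mem_singleton_self n)⟩
  choose S m hm using key
  have three : ∀ a b c : AL G, ∃ ψ : AL G →ₗ⁅ℤ⁆ AL G ⧸ J, ψ a = m a ∧ ψ b = m b ∧ ψ c = m c := by
    intro a b c
    obtain ⟨ψ, hψ⟩ := exists_fin hx hp he J hN hJ u (S a ∪ S b ∪ S c)
    exact ⟨ψ, hm a ψ fun n hn => hψ n (by simp [hn]), hm b ψ fun n hn => hψ n (by simp [hn]),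
      hm c ψ fun n hn => hψ n (by simp [hn])⟩
  refine ⟨mkLie (AddMonoidHom.mk' m fun a b => ?_) fun a b => ?_, fun n => ?_⟩
  · obtain ⟨ψ, h1, h2, h3⟩ := three a b (a + b)
    rw [← h1, ← h2, ← h3, map_add]
  · obtain ⟨ψ, h1, h2, h3⟩ := three a b ⁅a, b⁆
    change m ⁅a, b⁆ = ⁅m a, m b⁆
    rw [← h1, ← h2, ← h3, LieHom.map_lie]
  · obtain ⟨ψ, hψ⟩ := exists_fin hx hp he J hN hJ u (insert n (S (cls 0 (x n))))
    change m (cls 0 (x n)) = _
    rw [← hm _ ψ fun k hk => hψ k (mem_insert_of_mem hk), hψ n (mem_insert_self _ _)]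

theorem relFree_quot : RelFree (AL G ⧸ J) := by
  refine ⟨Set.range fun n => qm J (cls 0 (x n)), ?_, fun u => ?_⟩
  · rw [eq_top_iff]
    rintro m -
    obtain ⟨a, rfl⟩ := qm_surj J m
    refine hx.al_ind (P := fun a => qm J a ∈ LieSubalgebra.lieSpan ℤ (AL G ⧸ J)
      (Set.range fun n => qm J (cls 0 (x n)))) ?_ ?_ ?_ ?_ ?_ a
    · rw [map_zero]; exact zero_mem _
    · intro a b h h'; rw [map_add]; exact add_mem h h'
    · intro a h; rw [map_neg]; exact neg_mem h
    · intro a b h h'; rw [LieHom.map_lie]; exact LieSubalgebra.lie_mem _ h h'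
    · intro n; exact LieSubalgebra.subset_lieSpan ⟨n, rfl⟩
  · choose v hv using fun n => qm_surj J (u ⟨qm J (cls 0 (x n)), n, rfl⟩)
    obtain ⟨ψ, hψ⟩ := exists_all hx hp he J hN hJ v
    have hwd : ∀ a b, qm J a = qm J b → ψ a = ψ b := fun a b h => by
      rw [← sub_eq_zero, ← map_sub] at h ⊢
      exact hJ ψ _ ((qm_eq_zero J).1 h)
    choose s hs using qm_surj J
    refine ⟨mkLie (AddMonoidHom.mk' (fun m => ψ (s m)) fun a b => ?_) fun a b => ?_, ?_⟩
    · rw [← map_add]; exact hwd _ _ (by rw [map_add, hs, hs, hs])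
    · change ψ (s ⁅a, b⁆) = ⁅ψ (s a), ψ (s b)⁆
      rw [← LieHom.map_lie]; exact hwd _ _ (by rw [LieHom.map_lie, hs, hs, hs])
    · rintro ⟨_, n, rfl⟩
      change ψ (s _) = _
      rw [hwd _ _ (hs _), hψ, hv]

end Quot

theorem NI_killed {A : Type} [LieRing A] (p : ℕ) (ψ : A →ₗ⁅ℤ⁆ A ⧸ NI p A) :
    ∀ a ∈ NI p A, ψ a = 0 := by
  have : NI p A ≤ ψ.ker := by
    refine LieSubmodule.lieSpan_le.2 ?_
    rintro v ⟨c, hc, hv⟩
    have h1 : ψ c ∈ LieAlgebra.derivedSeries ℤ (A ⧸ NI p A) 1 :=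
      LieIdeal.derivedSeries_map_le 1 (LieIdeal.mem_map hc)
    rw [← LieIdeal.derivedSeries_map_eq (f := qm (NI p A)) 1 (qm_surj _)] at h1
    obtain ⟨c', hc'⟩ := LieIdeal.mem_map_of_surjective (qm_surj _) h1
    have h2 := Prd.map ψ hv
    rw [← hc'] at h2
    obtain ⟨v', hv', e⟩ := Prd.lift _ (qm_surj _) h2
    rw [SetLike.mem_coe, LieHom.mem_ker, ← e, qm_eq_zero]
    exact LieSubmodule.subset_lieSpan ⟨c', c'.2, hv'⟩
  exact fun a ha => LieHom.mem_ker.1 (this ha)

theorem derived_killed {A : Type} [LieRing A] (k : ℕ)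
    (ψ : A →ₗ⁅ℤ⁆ A ⧸ LieAlgebra.derivedSeries ℤ A k) :
    ∀ a ∈ LieAlgebra.derivedSeries ℤ A k, ψ a = 0 := by
  intro a ha
  have h1 : ψ a ∈ LieAlgebra.derivedSeries ℤ (A ⧸ LieAlgebra.derivedSeries ℤ A k) k :=
    LieIdeal.derivedSeries_map_le k (LieIdeal.mem_map ha)
  rw [← LieIdeal.derivedSeries_map_eq (f := qm _) k (qm_surj _)] at h1
  obtain ⟨c', hc'⟩ := LieIdeal.mem_map_of_surjective (qm_surj _) h1
  rw [← hc', qm_eq_zero]
  exact c'.2

theorem relFree_NI {x : ℕ → G} (hx : FreeOn x) {p : ℕ} (hp : p.Prime) (he : ∀ g : G, g ^ p = 1) :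
    RelFree (AL G ⧸ NI p (AL G)) :=
  relFree_quot hx hp he _ le_rfl (NI_killed p)

end Pool.Agent.MP_570645_al.H18
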