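import Pool.Agent.MP_570645_al.H18.Defs

/-! Induced maps, generation, and the Johnson derivation on the associated Lie ring. -/

namespace Pool.Agent.MP_570645_al.H18

open scoped commutatorElement

variable {G H : Type} [Group G] [Group H]

theorem gam_map (f : G →* H) {i : ℕ} {x : G} (hx : x ∈ gam G i) : f x ∈ gam H i := by
  have h : f x ∈ (gam G i).map f := Subgroup.mem_map_of_mem f hx
  rw [Subgroup.map_lowerCentralSeries] at h
  exact Subgroup.lowerCentralSeries_mono i le_top h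

/-- An additive map preserving brackets, as a morphism of Lie rings. -/
def mkLie {A B : Type} [LieRing A] [LieRing B] (φ : A →+ B) (h : ∀ a b, φ ⁅a, b⁆ = ⁅φ a, φ b⁆) :
    A →ₗ⁅ℤ⁆ B :=
  { φ.toIntLinearMap with map_lie' := fun {a b} => h a b }

theorem mkLie_apply {A B : Type} [LieRing A] [LieRing B] (φ : A →+ B)
    (h : ∀ a b, φ ⁅a, b⁆ = ⁅φ a, φ b⁆) (a : A) : mkLie φ h a = φ a := rfl

theorem AL_ind2 {P : AL G → AL G → Prop} (h0 : ∀ b, P 0 b) (h0' : ∀ a, P a 0)
    (hl : ∀ a a' b, P a b → P a' b → P (a + a') b) (hr : ∀ a b b', P a b → P a b' → P a (b + b'))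
    (hc : ∀ i j x y, x ∈ gam G i → y ∈ gam G j → P (cls i x) (cls j y)) (a b : AL G) : P a b := by
  induction a using AL_ind with
  | h0 => exact h0 b
  | hadd a a' h h' => exact hl _ _ _ h h'
  | hc i x hx =>
    induction b using AL_ind with
    | h0 => exact h0' _
    | hadd b b' h h' => exact hr _ _ _ h h'
    | hc j y hy => exact hc i j x y hx hy

theorem adm_ind (f : G →* H) : Adm fun i (x : G) => cls i (f x) where
  add i x y hx hy := by rw [map_mul, cls_mul (gam_map f hx) (gam_map f hy)]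
  zero i x hx := cls_succ (gam_map f hx)

/-- The morphism of associated Lie rings induced by a group homomorphism. -/
noncomputable def ind (f : G →* H) : AL G →ₗ⁅ℤ⁆ AL H :=
  mkLie (lift _ (adm_ind f)) (AL_ind2 (by simp) (by simp)
    (fun a a' b h h' => by rw [add_lie, map_add, map_add, add_lie, h, h'])
    (fun a b b' h h' => by rw [lie_add, map_add, map_add, lie_add, h, h'])
    fun i j x y hx hy => by
      rw [lie_cls hx hy, lift_cls _ _ (gam_comm hx hy), lift_cls _ _ hx, lift_cls _ _ hy,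
        lie_cls (gam_map f hx) (gam_map f hy), map_commutatorElement])

theorem ind_cls (f : G →* H) {i : ℕ} {x : G} (hx : x ∈ gam G i) :
    ind f (cls i x) = cls i (f x) := lift_cls _ (adm_ind f) hx

theorem gam_succ_ind {i : ℕ} {P : G → Prop} (h1 : P 1)
    (hmul : ∀ x y, x ∈ gam G (i + 1) → y ∈ gam G (i + 1) → P x → P y → P (x * y))
    (hinv : ∀ x, x ∈ gam G (i + 1) → P x → P x⁻¹)
    (hc : ∀ x y, x ∈ gam G i → P ⁅x, y⁆) {g : G} (hg : g ∈ gam G (i + 1)) : P g := by
  rw [Subgroup.mem_lowerCentralSeries_succ_iff] at hg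
  induction hg using Subgroup.closure_induction with
  | mem x hx => obtain ⟨a, ha, b, -, rfl⟩ := hx; exact hc a b ha
  | one => exact h1
  | mul x y hx hy h h' => exact hmul x y hx hy h h'
  | inv x hx h => exact hinv x hx h

theorem mem0 (x : G) : x ∈ gam G 0 := Subgroup.mem_top x

theorem cls_comm0 {i : ℕ} {x : G} (hx : x ∈ gam G i) (y : G) :
    cls (i + 1) ⁅x, y⁆ = ⁅cls i x, cls 0 y⁆ := (lie_cls hx (mem0 y)).symm

/-- The associated Lie ring is generated in degree one. -/
theorem AL_gen {P : AL G → Prop} (h0 : P 0) (hadd : ∀ a b, P a → P b → P (a + b))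
    (hneg : ∀ a, P a → P (-a)) (hlie : ∀ a b, P a → P b → P ⁅a, b⁆) (hc : ∀ x, P (cls 0 x))
    (a : AL G) : P a := by
  refine AL_ind h0 hadd (fun i => ?_) a
  induction i with
  | zero => exact fun x _ => hc x
  | succ i ih =>
    intro x hx
    refine gam_succ_ind (P := fun x => P (cls (i + 1) x)) ?_ ?_ ?_ ?_ hx
    · rw [cls_one]; exact h0
    · intro x y hx hy h h'; rw [cls_mul hx hy]; exact hadd _ _ h h'
    · intro x hx h; rw [cls_inv hx]; exact hneg _ h
    · intro x y hx; rw [cls_comm0 hx]; exact hlie _ _ (ih x hx) (hc y)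

theorem cls_mem_derived {i : ℕ} {x : G} (hx : x ∈ gam G (i + 1)) :
    cls (i + 1) x ∈ LieAlgebra.derivedSeries ℤ (AL G) 1 := by
  refine gam_succ_ind (P := fun x => cls (i + 1) x ∈ LieAlgebra.derivedSeries ℤ (AL G) 1)
    ?_ ?_ ?_ ?_ hx
  · rw [cls_one]; exact zero_mem _
  · intro x y hx hy h h'; rw [cls_mul hx hy]; exact add_mem h h'
  · intro x hx h; rw [cls_inv hx]; exact neg_mem h
  · intro x y hx
    rw [cls_comm0 hx]
    exact LieSubmodule.lie_mem_lie (LieSubmodule.mem_top _) (LieSubmodule.mem_top _)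

/-- `G` is relatively free on the sequence `x`. -/
structure FreeOn (x : ℕ → G) : Prop where
  gen : Subgroup.closure (Set.range x) = ⊤
  ext : ∀ g : ℕ → G, ∃ θ : G →* G, ∀ n, θ (x n) = g n

theorem FreeOn.grp_ind {x : ℕ → G} (hx : FreeOn x) {P : G → Prop} (h1 : P 1)
    (hmul : ∀ a b, P a → P b → P (a * b)) (hinv : ∀ a, P a → P a⁻¹) (hg : ∀ n, P (x n)) (g : G) :
    P g := by
  have h : g ∈ Subgroup.closure (Set.range x) := hx.gen ▸ Subgroup.mem_top g
  induction h using Subgroup.closure_induction with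
  | mem y hy => obtain ⟨n, rfl⟩ := hy; exact hg n
  | one => exact h1
  | mul a b _ _ h h' => exact hmul a b h h'
  | inv a _ h => exact hinv a h

theorem FreeOn.al_ind {x : ℕ → G} (hx : FreeOn x) {P : AL G → Prop} (h0 : P 0)
    (hadd : ∀ a b, P a → P b → P (a + b)) (hneg : ∀ a, P a → P (-a))
    (hlie : ∀ a b, P a → P b → P ⁅a, b⁆) (hc : ∀ n, P (cls 0 (x n))) (a : AL G) : P a := by
  refine AL_gen h0 hadd hneg hlie (fun g => ?_) a
  refine hx.grp_ind (P := fun g => P (cls 0 g)) ?_ ?_ ?_ hc g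
  · rw [cls_one]; exact h0
  · intro a b h h'; rw [cls_mul (mem0 a) (mem0 b)]; exact hadd _ _ h h'
  · intro a h; rw [cls_inv (mem0 a)]; exact hneg _ h

theorem FreeOn.lie_ext {x : ℕ → G} (hx : FreeOn x) {M : Type} [LieRing M]
    {φ ψ : AL G →ₗ⁅ℤ⁆ M} (h : ∀ n, φ (cls 0 (x n)) = ψ (cls 0 (x n))) (a : AL G) : φ a = ψ a := by
  refine hx.al_ind (P := fun a => φ a = ψ a) (by simp) ?_ ?_ ?_ h a
  · intro a b h h'; rw [map_add, map_add, h, h']
  · intro a h; rw [map_neg, map_neg, h]
  · intro a b h h'; rw [LieHom.map_lie, LieHom.map_lie, h, h']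

section Johnson

variable (α : G →* G)

/-- The deviation of `α` from the identity. -/
def dev (g : G) : G := α g * g⁻¹

theorem dev_mul (x y : G) : dev α (x * y) = dev α x * (x * dev α y * x⁻¹) := by
  simp [dev, mul_assoc]

theorem dev_inv (x : G) : dev α x⁻¹ = x⁻¹ * (dev α x)⁻¹ * x⁻¹⁻¹ := by
  simp [dev, mul_assoc]

theorem dev_comm (x y : G) : dev α ⁅x, y⁆ =
    (dev α x * ⁅x, dev α y⁆ * (dev α x)⁻¹) * ⁅dev α x * dev α y, ⁅x, y⁆⁆ *
      (⁅x, y⁆ * ⁅dev α x, dev α y * y⁆ * ⁅x, y⁆⁻¹) := by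
  simp [dev, commutatorElement_def, mul_assoc]

variable {α} {w : ℕ}

theorem dev_mem (h0 : ∀ g, dev α g ∈ gam G w) (i : ℕ) :
    ∀ g, g ∈ gam G i → dev α g ∈ gam G (i + w) := by
  induction i with
  | zero => intro g _; rw [Nat.zero_add]; exact h0 g
  | succ i ih =>
    intro g hg
    refine gam_succ_ind (P := fun g => dev α g ∈ gam G (i + 1 + w)) ?_ ?_ ?_ ?_ hg
    · simp [dev]
    · intro x y _ _ h h'; rw [dev_mul]; exact mul_mem h (gam_conj h' x)
    · intro x _ h; rw [dev_inv]; exact gam_conj (inv_mem h) _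
    · intro x y hx
      rw [dev_comm]
      refine mul_mem (mul_mem (gam_conj ?_ _) ?_) (gam_conj ?_ _)
      · exact gam_anti (by omega) (gam_comm hx (h0 y))
      · exact gam_anti (by omega) (gam_comm (mul_mem (h0 x) (h0 y)) (gam_comm hx (mem0 y)))
      · exact gam_anti (by omega) (gam_comm (ih x hx) (mem0 _))

theorem adm_dev (h0 : ∀ g, dev α g ∈ gam G w) : Adm fun i (g : G) => cls (i + w) (dev α g) where
  add i x y hx hy := by
    rw [dev_mul, cls_mul (dev_mem h0 i x hx) (gam_conj (dev_mem h0 i y hy) x),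
      cls_conj (dev_mem h0 i y hy)]
  zero i x hx := cls_succ (by
    have := dev_mem h0 (i + 1) x hx
    rwa [show i + 1 + w = i + w + 1 by omega] at this)

theorem exists_der (hw : 1 ≤ w) (h0 : ∀ g, dev α g ∈ gam G w) :
    ∃ D : LieDerivation ℤ (AL G) (AL G),
      ∀ i g, g ∈ gam G i → D (cls i g) = cls (i + w) (dev α g) := by
  set δ : AL G →+ AL G := lift _ (adm_dev h0) with hδ
  have hδc : ∀ i g, g ∈ gam G i → δ (cls i g) = cls (i + w) (dev α g) := fun i g hg =>
    lift_cls _ (adm_dev h0) hg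
  have hl : ∀ a b : AL G, δ ⁅a, b⁆ = ⁅a, δ b⁆ + ⁅δ a, b⁆ := by
    refine AL_ind2 (by simp) (by simp) ?_ ?_ ?_
    · intro a a' b h h'; simp only [add_lie, map_add, h, h']; abel
    · intro a b b' h h'; simp only [lie_add, map_add, h, h']; abel
    · intro i j x y hx hy
      have ha := dev_mem h0 i x hx
      have hb := dev_mem h0 j y hy
      have hby : dev α y * y ∈ gam G j := mul_mem (gam_anti (by omega) hb) hy
      have e : cls j y = cls j (dev α y * y) := by
        rw [cls_mul (gam_anti (by omega) hb) hy, cls_succ (gam_anti (by omega) hb), zero_add]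
      have h1 := gam_comm hx hb
      have h2 : ⁅dev α x * dev α y, ⁅x, y⁆⁆ ∈ gam G (i + j + 1 + w + 1) :=
        gam_anti (by omega) (gam_comm (mul_mem (h0 x) (h0 y)) (gam_comm hx hy))
      have h3 := gam_comm ha hby
      rw [lie_cls hx hy, hδc _ _ (gam_comm hx hy), hδc _ _ hx, hδc _ _ hy, lie_cls hx hb, e,
        lie_cls ha hby]
      rw [show i + (j + w) + 1 = i + j + 1 + w by omega] at h1 ⊢
      rw [show i + w + j + 1 = i + j + 1 + w by omega] at h3 ⊢
      rw [dev_comm, cls_mul (mul_mem (gam_conj h1 _) (gam_anti (by omega) h2)) (gam_conj h3 _),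
        cls_mul (gam_conj h1 _) (gam_anti (by omega) h2), cls_conj h1, cls_conj h3, cls_succ h2,
        add_zero]
  refine ⟨{ δ.toIntLinearMap with leibniz' := fun a b => ?_ }, hδc⟩
  change δ ⁅a, b⁆ = ⁅a, δ b⁆ - ⁅b, δ a⁆
  rw [hl, sub_eq_add_neg, lie_skew]

end Johnson

/-- The derivation sending one even generator to the class of a word in the odd generators. -/
theorem FreeOn.exists_der {x : ℕ → G} (hx : FreeOn x) {o : G →* G}
    (ho : ∀ n, o (x n) = x (2 * n + 1)) (n w : ℕ) (hw : 1 ≤ w) {g : G} (hg : g ∈ gam G w) :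
    ∃ D : LieDerivation ℤ (AL G) (AL G), D (cls 0 (x (2 * n))) = ind o (cls w g) ∧
      (∀ m, m ≠ 2 * n → D (cls 0 (x m)) = 0) ∧ ∀ a, D (ind o a) = 0 := by
  classical
  obtain ⟨α, hα⟩ := hx.ext fun m => if m = 2 * n then o g * x m else x m
  have hog : o g ∈ gam G w := gam_map o hg
  have h0 : ∀ y, dev α y ∈ gam G w := by
    refine hx.grp_ind (by simp [dev]) ?_ ?_ ?_
    · intro a b h h'; rw [dev_mul]; exact mul_mem h (gam_conj h' a)
    · intro a h; rw [dev_inv]; exact gam_conj (inv_mem h) _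
    · intro m
      rw [dev, hα]
      split_ifs
      · simpa using hog
      · simp
  obtain ⟨D, hD⟩ := H18.exists_der hw h0
  have hz : ∀ m, m ≠ 2 * n → D (cls 0 (x m)) = 0 := fun m hm => by
    rw [hD _ _ (mem0 _), dev, hα, if_neg hm, mul_inv_cancel, cls_one]
  refine ⟨D, ?_, hz, ?_⟩
  · rw [hD _ _ (mem0 _), dev, hα, if_pos rfl, mul_inv_cancel_right, Nat.zero_add, ind_cls o hg]
  · refine hx.al_ind (by simp) ?_ ?_ ?_ ?_
    · intro a b h h'; rw [map_add, map_add, h, h', add_zero]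
    · intro a h; rw [map_neg, map_neg, h, neg_zero]
    · intro a b h h'; rw [LieHom.map_lie, LieDerivation.apply_lie_eq_add, h, h']; simp
    · intro m; rw [ind_cls o (mem0 _), ho]; exact hz _ (by omega)

theorem al_torsion {p : ℕ} (hp : ∀ g : G, g ^ p = 1) (a : AL G) : p • a = 0 := by
  have hpow : ∀ i (x : G), x ∈ gam G i → ∀ k : ℕ, cls i (x ^ k) = k • cls i x := by
    intro i x hx k
    induction k with
    | zero => rw [pow_zero, cls_one, zero_nsmul]
    | succ k ih => rw [pow_succ, cls_mul (pow_mem hx k) hx, ih, succ_nsmul]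
  induction a using AL_ind with
  | h0 => simp
  | hadd a b h h' => rw [nsmul_add, h, h', add_zero]
  | hc i x hx => rw [← hpow i x hx, hp, cls_one]

end Pool.Agent.MP_570645_al.H18
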