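import Pool.Agent.MP_570645_al.H18.Eng2

/-! Engel Lie rings of derived length three: products with `p` equal entries from `[M, M]`. -/

namespace Pool.Agent.MP_570645_al.H18

open Finset

variable {M : Type} [LieRing M]

theorem act_mem (I : LieIdeal ℤ M) (l : List M) {v : M} (hv : v ∈ I) : act l v ∈ I := by
  induction l with
  | nil => exact hv
  | cons h l ih => exact I.lie_mem ih

theorem cancel_nsmul {p k : ℕ} (hp : p.Prime) (hk : ¬ p ∣ k) {x : M} (h1 : p • x = 0)
    (h2 : k • x = 0) : x = 0 := by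
  have h := Nat.dvd_gcd (addOrderOf_dvd_of_nsmul_eq_zero h1) (addOrderOf_dvd_of_nsmul_eq_zero h2)
  rw [(hp.coprime_iff_not_dvd.2 hk).gcd_eq_one, Nat.dvd_one] at h
  exact AddMonoid.addOrderOf_eq_one_iff.1 h

theorem exists_ofFn {α : Type} {n : ℕ} (l : List α) (h : l.length = n) :
    ∃ a : Fin n → α, List.ofFn a = l := by
  subst h
  exact ⟨l.get, List.ofFn_get l⟩

theorem ofFn_rev {α : Type} {n : ℕ} (a : Fin n → α) :
    List.ofFn (a ∘ Fin.revPerm) = (List.ofFn a).reverse := by
  apply List.ext_getElem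
  · simp
  · intro i h1 h2
    simp only [List.getElem_ofFn, List.getElem_reverse, List.length_ofFn, Function.comp_apply,
      Fin.revPerm_apply]
    congr 1
    apply Fin.ext
    simp only [Fin.val_rev]
    omega

/-- The product `⁅u c, u' c⁆` acted on by the words `w c`, `w ∈ s`. -/
def TT (c : M) (s : List (List M)) (u u' : List M) : M :=
  act (s.map fun w => act w c) ⁅act u c, act u' c⁆

/-- The total number of letters. -/
def len (s : List (List M)) (u u' : List M) : ℕ := (s.map List.length).sum + u.length + u'.length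

section

variable {H K : LieIdeal ℤ M} (hHK : ∀ a ∈ H, ∀ b ∈ H, ⁅a, b⁆ ∈ K)
  (hKK : ∀ a ∈ K, ∀ b ∈ K, ⁅a, b⁆ = 0)

include hHK hKK

theorem lie_comm {h h' z : M} (hh : h ∈ H) (hh' : h' ∈ H) (hz : z ∈ K) :
    ⁅h, ⁅h', z⁆⁆ = ⁅h', ⁅h, z⁆⁆ := by
  rw [leibniz_lie, hKK _ (hHK _ hh _ hh') _ hz, zero_add]

theorem act_comm {h z : M} (hh : h ∈ H) (l : List M) (hl : ∀ a ∈ l, a ∈ H) (hz : z ∈ K) :
    ⁅h, act l z⁆ = act l ⁅h, z⁆ := by
  induction l with
  | nil => rfl
  | cons a l ih =>
    rw [act_cons, act_cons, lie_comm hHK hKK hh (hl a List.mem_cons_self) (act_mem K l hz),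
      ih fun b hb => hl b (List.mem_cons_of_mem _ hb)]

theorem act_perm {l l' : List M} (h : l.Perm l') (hl : ∀ a ∈ l, a ∈ H) {z : M} (hz : z ∈ K) :
    act l z = act l' z := by
  induction h with
  | nil => rfl
  | cons a _ ih => rw [act_cons, act_cons, ih fun b hb => hl b (List.mem_cons_of_mem _ hb)]
  | swap a b l =>
    exact lie_comm hHK hKK (hl b (by simp)) (hl a (by simp)) (act_mem K l hz)
  | trans h1 _ ih ih' => rw [ih hl, ih' fun a ha => hl a (h1.mem_iff.2 ha)]

theorem e_comm (y : M) (A B : List M) (hA : ∀ a ∈ A, a ∈ H) (hB : ∀ a ∈ B, a ∈ H) {v : M}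
    (hv : v ∈ K) : act A ⁅y, act B v⁆ + act B ⁅y, act A v⁆ =
      act A (act B ⁅y, v⁆) + ⁅y, act B (act A v)⁆ := by
  induction A with
  | nil => exact add_comm _ _
  | cons h A ih =>
    have hh := hA h List.mem_cons_self
    have hw := act_mem K A hv
    have ih' := congrArg (fun t => ⁅h, t⁆) (ih fun b hb => hA b (List.mem_cons_of_mem _ hb))
    simp only [lie_add] at ih'
    have e1 := act_comm hHK hKK hh B hB (K.lie_mem hw : ⁅y, act A v⁆ ∈ K)
    have e2 := act_comm hHK hKK (lie_mem_left ℤ M H h y hh) B hB hw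
    have e3 := act_comm hHK hKK hh B hB hw
    have e4 := leibniz_lie h y (act B (act A v))
    rw [leibniz_lie h y (act A v), act_add] at e1
    simp only [act_cons]
    rw [← e3]
    linear_combination (norm := abel1) ih' - e1 + e2 + e4

theorem act_pair {y : M} {l h : List M} (hl : l.Perm (y :: h)) (hh : ∀ a ∈ h, a ∈ H) {v : M}
    (hv : v ∈ K) : act l v + act l.reverse v = act h ⁅y, v⁆ + ⁅y, act h v⁆ := by
  obtain ⟨A, B, rfl⟩ := List.append_of_mem (hl.mem_iff.2 List.mem_cons_self)
  have hp : (A ++ B).Perm h := (List.perm_middle.symm.trans hl).cons_inv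
  have hAB : ∀ a ∈ A ++ B, a ∈ H := fun a ha => hh a (hp.mem_iff.1 ha)
  have hA : ∀ a ∈ A, a ∈ H := fun a ha => hAB a (List.mem_append_left _ ha)
  have hB : ∀ a ∈ B, a ∈ H := fun a ha => hAB a (List.mem_append_right _ ha)
  rw [List.reverse_append, List.reverse_cons, List.append_assoc, act_append, act_append, act_cons,
    List.singleton_append, act_cons,
    ← act_perm hHK hKK (List.reverse_perm A).symm hA hv,
    ← act_perm hHK hKK (List.reverse_perm B).symm hB (K.lie_mem (act_mem K A hv)),
    e_comm hHK hKK y A B hA hB hv, ← act_append, ← act_append,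
    act_perm hHK hKK hp hAB (K.lie_mem hv),
    ← act_perm hHK hKK (List.perm_append_comm : (A ++ B).Perm (B ++ A)) hAB hv,
    act_perm hHK hKK hp hAB hv]

variable {q : ℕ} (hp : (q + 2).Prime) (ht : ∀ x : M, (q + 2) • x = 0) (hE : Engel (q + 1) M)

include hp ht hE

theorem engel_pair (y : M) {h : List M} (hq : h.length = q) (hh : ∀ a ∈ h, a ∈ H) {v : M}
    (hv : v ∈ K) : act h ⁅y, v⁆ + ⁅y, act h v⁆ = 0 := by
  obtain ⟨a, ha⟩ := exists_ofFn (y :: h) (n := q + 1) (by simp [hq])
  have h1 := hE a v
  have h2 : ∑ σ : Equiv.Perm (Fin (q + 1)), act (List.ofFn (a ∘ σ)).reverse v = 0 := by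
    rw [← h1, ← Equiv.sum_comp (Equiv.mulRight Fin.revPerm)
      fun σ : Equiv.Perm (Fin (q + 1)) => act (List.ofFn (a ∘ σ)) v]
    exact sum_congr rfl fun σ _ => by rw [← ofFn_rev]; rfl
  have h3 : ∑ σ : Equiv.Perm (Fin (q + 1)), (act h ⁅y, v⁆ + ⁅y, act h v⁆) = 0 := by
    rw [← add_zero (0 : M)]
    nth_rewrite 1 [← h1]
    rw [← h2, ← sum_add_distrib]
    exact sum_congr rfl fun σ _ =>
      (act_pair hHK hKK (ha ▸ σ.ofFn_comp_perm a) hh hv).symm
  rw [sum_const, card_univ, Fintype.card_perm, Fintype.card_fin] at h3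
  exact cancel_nsmul hp (by rw [hp.dvd_factorial]; omega) (ht _) h3

theorem TT_zero (hq : q ≠ 0) {c : M} (hc : c ∈ H) (N : ℕ) :
    ∀ s u u', s.length = q → len s u u' = N → TT c s u u' = 0 := by
  classical
  induction N using Nat.strong_induction_on with
  | _ N ih =>
  have hs : ∀ s : List (List M), ∀ a ∈ s.map fun w => act w c, a ∈ H := fun s a ha => by
    obtain ⟨w, -, rfl⟩ := List.mem_map.1 ha
    exact act_mem H w hc
  have hK : ∀ u u' : List M, ⁅act u c, act u' c⁆ ∈ K := fun u u' =>
    hHK _ (act_mem H u hc) _ (act_mem H u' hc)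
  have move : ∀ s u u' y, s.length = q → len s u u' < N →
      TT c s u (y :: u') = -TT c s (y :: u) u' := by
    intro s u u' y h1 h2
    have h3 := engel_pair hHK hKK hp ht hE y (by simp [h1]) (hs s) (hK u u')
    have h4 := ih _ h2 s u u' h1 rfl
    rw [TT] at h4
    rw [h4, lie_zero, add_zero, leibniz_lie, act_add] at h3
    exact eq_neg_of_add_eq_zero_right h3
  have perm : ∀ s u' l l', s.length = q → List.Perm l l' → ∀ w, len s (w ++ l) u' = N →
      TT c s (w ++ l) u' = TT c s (w ++ l') u' := by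
    intro s u' l l' h1 h2
    induction h2 with
    | nil => intro w _; rfl
    | cons a _ ih' =>
      intro w hw
      have := ih' (w ++ [a]) (by simpa using hw)
      simpa using this
    | swap a b l =>
      intro w hw
      have h4 := ih _ (by rw [← hw]; simp [len]) s (w ++ ⁅b, a⁆ :: l) u' h1 rfl
      rw [TT, act_append, act_cons] at h4
      rw [TT, TT, act_append, act_append, act_cons, act_cons, act_cons, act_cons, leibniz_lie b a,
        act_add, add_lie, act_add, h4, zero_add]
    | trans h3 _ ih1 ih2 =>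
      intro w hw
      rw [ih1 w hw, ih2 w (by rw [← hw]; simp [len, h3.length_eq])]
  have moveall : ∀ s u' u, s.length = q → len s u u' = N →
      TT c s u u' = (-1 : ℤ) ^ u'.length • TT c s (u'.reverse ++ u) [] := by
    intro s u'
    induction u' with
    | nil => intro u _ _; simp
    | cons y u' ih' =>
      intro u h1 h2
      rw [move s u u' y h1 (by rw [← h2]; simp [len]),
        ih' (y :: u) h1 (by rw [← h2]; simp [len]; omega), List.length_cons, pow_succ]
      simp
  have par : ∀ s u u', s.length = q → len s u u' = N → u.length % 2 = u'.length % 2 →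
      TT c s u u' = 0 := by
    intro s u u' h1 h2 h3
    have e1 := moveall s u' u h1 h2
    have e2 := moveall s u u' h1 (by rw [← h2]; simp [len]; omega)
    have e3 := perm s [] (u'.reverse ++ u) (u.reverse ++ u') h1
      ((((List.reverse_perm u').append (List.reverse_perm u).symm).trans
        List.perm_append_comm)) [] (by rw [← h2]; simp [len]; omega)
    rw [List.nil_append, List.nil_append] at e3
    rw [neg_one_pow_eq_pow_mod_two, h3, ← neg_one_pow_eq_pow_mod_two, ← e3, ← e1] at e2
    refine cancel_nsmul (k := 2) hp (fun h => by have := Nat.le_of_dvd two_pos h; omega) (ht _) ?_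
    rw [two_nsmul]
    nth_rewrite 1 [← e2]
    rw [TT, TT, ← act_add, ← lie_skew, neg_add_cancel, act_zero]
  have hlen : ∀ (s s' : List (List M)) (u u' u0 : List M), (s ++ [u]).Perm (s' ++ [u']) →
      len s u u0 = len s' u' u0 := by
    intro s s' u u' u0 h
    have := (h.map List.length).sum_eq
    simp only [List.map_append, List.sum_append, List.map_singleton, List.sum_singleton] at this
    rw [len, len, this]
  have jac : ∀ s s' u u' u0, s.length = q → len s u u0 = N → (s ++ [u]).Perm (s' ++ [u']) →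
      u.length % 2 = u'.length % 2 → TT c s u u0 = TT c s' u' u0 := by
    intro s s' u u' u0 h1 h2 h3 h4
    by_cases huu : u = u'
    · subst huu
      exact act_perm hHK hKK (((List.perm_append_right_iff _).1 h3).map _) (hs s) (hK _ _)
    · have hm : u' ∈ s := by
        have : u' ∈ s ++ [u] := h3.mem_iff.2 (by simp)
        simpa [Ne.symm huu] using this
      have h5 : s.Perm (s.erase u' ++ [u']) :=
        (List.perm_cons_erase hm).trans (List.perm_append_singleton _ _).symm
      have h6 : s'.Perm (s.erase u' ++ [u]) := by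
        refine (List.perm_append_right_iff [u']).1 (h3.symm.trans ((h5.append_right _).trans ?_))
        rw [List.append_assoc, List.append_assoc]
        exact List.Perm.append_left _ (List.Perm.swap _ _ _)
      have h7 := par (s.erase u' ++ [u0]) u' u (by rw [← h1, h5.length_eq]; simp) (by
        have := (h5.map List.length).sum_eq
        rw [← h2]
        simp only [len, this, List.map_append, List.sum_append, List.map_singleton,
          List.sum_singleton]
        omega) h4.symm
      rw [TT, TT, act_perm hHK hKK (h5.map _) (hs s) (hK _ _),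
        act_perm hHK hKK (h6.map _) (hs s') (hK _ _)]
      rw [TT] at h7
      simp only [List.map_append, List.map_singleton, act_append, act_cons, act_nil] at h7 ⊢
      rw [leibniz_lie (act u' c), act_add, ← lie_skew ⁅act u' c, act u c⁆, act_neg, h7, neg_zero,
        zero_add]
  intro s u u0 h1 h2
  by_cases hpar : u.length % 2 = u0.length % 2
  · exact par s u u0 h1 h2 hpar
  obtain ⟨a, ha⟩ := exists_ofFn (s ++ [u]) (n := q + 1) (by simp [h1])
  let f : Fin (q + 1) → ℕ := fun j => if (a j).length % 2 = u0.length % 2 then 0 else 1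
  have h3 : (∑ σ : Equiv.Perm (Fin (q + 1)), f (σ (Fin.last q))) • TT c s u u0 = 0 := by
    rw [← hE (fun i => act (a i) c) (act u0 c), sum_smul]
    refine sum_congr rfl fun σ _ => ?_
    have e : act (List.ofFn ((fun i => act (a i) c) ∘ σ)) (act u0 c) =
        TT c (List.ofFn fun i : Fin q => a (σ i.castSucc)) (a (σ (Fin.last q))) u0 := by
      rw [List.ofFn_succ_last, act_append, TT, List.map_ofFn]; rfl
    have hP : (s ++ [u]).Perm
        ((List.ofFn fun i : Fin q => a (σ i.castSucc)) ++ [a (σ (Fin.last q))]) := by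
      have := σ.ofFn_comp_perm a
      rw [ha, List.ofFn_succ_last] at this
      exact this.symm
    rw [e]
    simp only [f]
    split_ifs with h
    · rw [zero_nsmul, par _ _ _ (by simp) (by rw [← hlen _ _ _ _ _ hP, h2]) h]
    · rw [one_nsmul, jac _ _ _ _ _ h1 h2 hP (by omega)]
  have h4 : ∀ i, ∑ σ : Equiv.Perm (Fin (q + 1)), f (σ i) =
      ∑ σ : Equiv.Perm (Fin (q + 1)), f (σ (Fin.last q)) := by
    intro i
    rw [← Equiv.sum_comp (Equiv.mulRight (Equiv.swap i (Fin.last q)))]
    exact sum_congr rfl fun σ _ => by simp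
  have h5 : (q + 1).factorial * ∑ j, f j =
      (q + 1) * ∑ σ : Equiv.Perm (Fin (q + 1)), f (σ (Fin.last q)) := by
    have := sum_comm (s := (univ : Finset (Fin (q + 1))))
      (t := (univ : Finset (Equiv.Perm (Fin (q + 1))))) (f := fun i σ => f (σ i))
    simp only [h4, Equiv.sum_comp _ f, sum_const, card_univ, Fintype.card_perm, Fintype.card_fin,
      smul_eq_mul] at this
    exact this.symm
  have h6 : ∑ j, f j ≤ q + 1 := by
    have := sum_le_card_nsmul univ f 1 fun j _ => by simp only [f]; split_ifs <;> omega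
    simpa using this
  have h7 : 0 < ∑ j, f j := by
    have : u ∈ List.ofFn a := by rw [ha]; simp
    obtain ⟨j, hj⟩ := List.mem_ofFn.1 this
    exact sum_pos' (fun _ _ => Nat.zero_le _) ⟨j, mem_univ _, by simp [f, hj, hpar]⟩
  refine cancel_nsmul (k := (q + 1).factorial * ∑ j, f j) hp (fun h => ?_) (ht _) ?_
  · rcases (Nat.Prime.dvd_mul hp).1 h with h | h
    · rw [hp.dvd_factorial] at h; omega
    · have := Nat.le_of_dvd h7 h; omega
  · rw [h5, mul_nsmul', h3, nsmul_zero]

end

/-- The span of the left-normed products of `j + 1` words in `c`. -/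
def XS (c : M) (j : ℕ) : AddSubgroup M :=
  AddSubgroup.closure
    {v | ∃ (s : List (List M)) (u : List M), s.length = j ∧ v = act (s.map fun w => act w c) (act u c)}

theorem XS_ind {c : M} {j : ℕ} {P : M → Prop} (h0 : P 0) (hadd : ∀ a b, P a → P b → P (a + b))
    (hneg : ∀ a, P a → P (-a)) (hm : ∀ (s : List (List M)) (u : List M), s.length = j →
      P (act (s.map fun w => act w c) (act u c))) {v : M} (hv : v ∈ XS c j) : P v := by
  induction hv using AddSubgroup.closure_induction with
  | zero => exact h0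
  | add a b _ _ h h' => exact hadd a b h h'
  | neg a _ h => exact hneg a h
  | mem a ha => obtain ⟨s, u, h, rfl⟩ := ha; exact hm s u h

theorem XS_cons {c : M} {j : ℕ} (w : List M) {v : M} (hv : v ∈ XS c j) :
    ⁅act w c, v⁆ ∈ XS c (j + 1) := by
  refine XS_ind (P := fun v => ⁅act w c, v⁆ ∈ XS c (j + 1)) (by simp) ?_ ?_ ?_ hv
  · intro a b h h'; rw [lie_add]; exact add_mem h h'
  · intro a h; rw [lie_neg]; exact neg_mem h
  · intro s u h; exact AddSubgroup.subset_closure ⟨w :: s, u, by simp [h], rfl⟩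

theorem XS_lie {c : M} {j : ℕ} (y : M) {v : M} (hv : v ∈ XS c j) : ⁅y, v⁆ ∈ XS c j := by
  refine XS_ind (P := fun v => ⁅y, v⁆ ∈ XS c j) (by simp) ?_ ?_ ?_ hv
  · intro a b h h'; rw [lie_add]; exact add_mem h h'
  · intro a h; rw [lie_neg]; exact neg_mem h
  · intro s u h
    subst h
    clear hv
    induction s with
    | nil => exact AddSubgroup.subset_closure ⟨[], y :: u, rfl, rfl⟩
    | cons w s ih =>
      rw [List.map_cons, act_cons, leibniz_lie]
      exact add_mem (AddSubgroup.subset_closure ⟨(y :: w) :: s, u, rfl, rfl⟩) (XS_cons w ih)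

theorem XS_XS {c : M} {i j : ℕ} {a b : M} (ha : a ∈ XS c i) (hb : b ∈ XS c j) :
    ⁅a, b⁆ ∈ XS c (i + j + 1) := by
  refine XS_ind (P := fun a => ⁅a, b⁆ ∈ XS c (i + j + 1)) (by simp) ?_ ?_ ?_ ha
  · intro a a' h h'; rw [add_lie]; exact add_mem h h'
  · intro a h; rw [neg_lie]; exact neg_mem h
  · intro s u h
    subst h
    clear ha
    induction s generalizing j b with
    | nil => simpa [act_nil] using XS_cons u hb
    | cons w s ih =>
      rw [List.map_cons, act_cons, lie_lie, List.length_cons]
      have h1 := XS_cons w (ih hb)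
      have h2 := ih (XS_cons w hb)
      rw [show s.length + j + 1 + 1 = s.length + 1 + j + 1 by omega] at h1
      rw [show s.length + (j + 1) + 1 = s.length + 1 + j + 1 by omega] at h2
      exact sub_mem h1 h2

theorem Prd.mem_XS {c : M} {k : ℕ} {v : M} (h : Prd c k v) : ∀ j, k = j + 1 → v ∈ XS c j := by
  induction h with
  | other y => intro j hj; omega
  | self =>
    intro j hj
    obtain rfl : j = 0 := by omega
    exact AddSubgroup.subset_closure ⟨[], [], rfl, rfl⟩
  | @lie i i' v w _ _ h h' =>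
    intro j hj
    rcases i with _ | i
    · exact XS_lie v (h' j (by omega))
    rcases i' with _ | i'
    · rw [← lie_skew]; exact neg_mem (XS_lie w (h j (by omega)))
    · obtain rfl : j = i + i' + 1 := by omega
      exact XS_XS (h i rfl) (h' i' rfl)

theorem prd_zero {p : ℕ} (hp : p.Prime) (ht : ∀ x : M, p • x = 0) (hE : Engel (p - 1) M)
    (h3 : ∀ x ∈ LieAlgebra.derivedSeries ℤ M 3, x = 0) {c v : M}
    (hc : c ∈ LieAlgebra.derivedSeries ℤ M 1) (hv : Prd c p v) : v = 0 := by
  obtain ⟨q, rfl⟩ : ∃ q, p = q + 2 := ⟨p - 2, by have := hp.two_le; omega⟩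
  refine XS_ind (P := fun v : M => v = (0 : M)) rfl (fun a b h h' => by rw [h, h', add_zero])
    (fun a h => by rw [h, neg_zero]) ?_ (hv.mem_XS (q + 1) rfl)
  intro s u hs
  obtain ⟨s, w, rfl⟩ : ∃ s' w, s = s' ++ [w] := by
    rcases List.eq_nil_or_concat s with rfl | ⟨s', w, rfl⟩
    · simp at hs
    · exact ⟨s', w, List.concat_eq_append⟩
  rw [List.map_append, act_append]
  change TT c s w u = 0
  by_cases hq : q = 0
  · subst hq
    have := hE (fun _ => act w c) (act u c)
    rw [TT, show ⁅act w c, act u c⁆ = 0 by simpa [act_cons, act_nil] using this, act_zero]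
  · exact TT_zero (H := LieAlgebra.derivedSeries ℤ M 1) (K := LieAlgebra.derivedSeries ℤ M 2)
      (fun a ha b hb => LieSubmodule.lie_mem_lie ha hb)
      (fun a ha b hb => h3 _ (LieSubmodule.lie_mem_lie ha hb)) hp ht hE hq hc _ s w u
      (by simpa using hs) rfl

theorem NI_le_derived {p : ℕ} (hp : p.Prime) (ht : ∀ x : M, p • x = 0) (hE : Engel (p - 1) M) :
    NI p M ≤ LieAlgebra.derivedSeries ℤ M 3 := by
  refine LieSubmodule.lieSpan_le.2 ?_
  rintro v ⟨c, hc, hv⟩
  rw [SetLike.mem_coe, ← qm_eq_zero]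
  refine prd_zero hp (fun x => ?_) (hE.map _ (qm_surj _)) (fun x hx => ?_)
    (LieIdeal.derivedSeries_map_le 1 (LieIdeal.mem_map hc)) (hv.map _)
  · obtain ⟨x, rfl⟩ := qm_surj _ x
    rw [← map_nsmul, ht, map_zero]
  · rw [← LieIdeal.derivedSeries_map_eq (f := qm _) 3 (qm_surj _)] at hx
    obtain ⟨c', hc'⟩ := LieIdeal.mem_map_of_surjective (qm_surj _) hx
    rw [← hc', qm_eq_zero]
    exact c'.2

end Pool.Agent.MP_570645_al.H18
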